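import Pool.Agent.Work.MP_56b8f5_nt.SX.Stmts
import Pool.Agent.Work.MP_56b8f5_nt.SH.I_AtT

/-!
MP_56b8f5_nt, block SX, item Y11 (AtTS): the theorem at scale `T` in the sector.
-/

set_option autoImplicit false

open MeasureTheory Set Filter Topology

noncomputable section

namespace Pool.Agent.Work.MP_56b8f5_nt.SX

open Pool.Agent.Work.MP_56b8f5_nt.EM Pool.Agent.Work.MP_56b8f5_nt.WM
open Pool.Agent.Work.MP_56b8f5_nt.WA Pool.Agent.Work.MP_56b8f5_nt.SH

namespace I_AtTS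

theorem sec_meas {f : ℝ → ℂ} (hf : Continuous f) (θ : ℝ) (ω : ℂ) :
    MeasurableSet (sec θ ω f) := by
  unfold sec
  exact measurableSet_lt (continuous_const.mul hf.norm).measurable
    (Complex.continuous_re.comp (continuous_const.mul hf)).measurable

theorem zf_cont (h : Continuous zt) (T : ℝ) : Continuous (zf T) := by
  unfold zf
  exact h.comp (continuous_const.mul continuous_id)

theorem fin_ineq (θ s β V K th c₂ E : ℝ) (hθ : 0 < θ) (hK : 0 < K) (hs : 0 < s) (hV : V = β * s)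
    (hth : K ^ 2 / (2 * Real.sqrt s) ≤ th)
    (hnum : c₂ * E ≤ Real.exp (-(β ^ 2 * s)) / (2 * Real.sqrt s)) :
    c₂ * θ * E ≤
      θ * (Real.exp (β ^ 2 * s) * th) / (K ^ 2 * Real.exp (2 * β * V)) := by
  have h1 := hnum.trans (SH.I_AtT.fin_ineq s β V K th hK hs hV hth)
  have h2 := mul_le_mul_of_nonneg_left h1 hθ.le
  calc c₂ * θ * E = θ * (c₂ * E) := by ring
    _ ≤ θ * (Real.exp (β ^ 2 * s) * th / (K ^ 2 * Real.exp (2 * β * V))) := h2
    _ = θ * (Real.exp (β ^ 2 * s) * th) / (K ^ 2 * Real.exp (2 * β * V)) := by ring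

end I_AtTS

open I_AtTS SH.I_AtT in
/-- **Y11 (AtTS)** -/
theorem AtTS_pf (h1 : SH.S_Sys) (h2 : S_LoS) (h3 : S_BadS) (h4 : SH.S_Rv) (h5 : SH.S_Pw)
    (h6 : SH.S_Th) (h7 : SH.S_NumS) (h8 : SH.S_Cha) (h0 : WA.S_UZ) : S_AtTS := by
  intro w hw hw0 k hk
  have hPc : ∀ S : Finset ℕ, Continuous fun t : ℝ => PS S t := h8.2.2.2.2.2.2.2.2.1
  have hk1 : (1 : ℝ) ≤ k := by exact_mod_cast hk
  obtain ⟨B, hBk⟩ : ∃ B : ℝ, B = 2 * k := ⟨_, rfl⟩
  have hB1 : 1 ≤ B := by linarith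
  obtain ⟨ρ, hρ⟩ : ∃ ρ : ℝ, ρ = 1 / (9 * (B + 1)) := ⟨_, rfl⟩
  have hρ0 : 0 < ρ := by
    rw [hρ]
    positivity
  have hρ1 : ρ ≤ 1 / 2 := by
    rw [hρ]
    apply one_div_le_one_div_of_le (by norm_num)
    linarith
  obtain ⟨εa, ηa, hεa, -, hηa, hLo⟩ := h2 w hw hw0 B hB1
  obtain ⟨εb, ηb, C₂, hεb, -, hηb, hC2, hBadθ⟩ := h3 w hw hw0 B ρ hB1 hρ0 (by linarith)
  have hC2p : 0 < C₂ := by linarith
  obtain ⟨ε₁, hε1, hε1a, hε1b⟩ : ∃ ε₁ : ℝ, 0 < ε₁ ∧ ε₁ ≤ εa ∧ ε₁ ≤ εb :=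
    ⟨min εa εb, lt_min hεa hεb, min_le_left _ _, min_le_right _ _⟩
  obtain ⟨c₀, hc0⟩ : ∃ c₀ : ℝ, c₀ = W0 w / (8 * Real.pi) := ⟨_, rfl⟩
  have hc0p : 0 < c₀ := by
    rw [hc0]
    positivity
  obtain ⟨η, hη, hηηa, hηηb, hη100, hηW⟩ : ∃ η : ℝ, 0 < η ∧ η ≤ ηa ∧ η ≤ ηb ∧ η ≤ 1 / 100 ∧
      C₂ * η ≤ c₀ / 8 := by
    refine ⟨min (min ηa ηb) (min (1 / 100) (c₀ / (8 * C₂))), ?_,
      (min_le_left _ _).trans (min_le_left _ _), (min_le_left _ _).trans (min_le_right _ _),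
      (min_le_right _ _).trans (min_le_left _ _), ?_⟩
    · exact lt_min (lt_min hηa hηb) (lt_min (by norm_num) (by positivity))
    · calc C₂ * min (min ηa ηb) (min (1 / 100) (c₀ / (8 * C₂))) ≤ C₂ * (c₀ / (8 * C₂)) :=
            mul_le_mul_of_nonneg_left ((min_le_right _ _).trans (min_le_right _ _)) hC2p.le
        _ = c₀ / 8 := by
            field_simp
  obtain ⟨Λ, hΛ, hSys⟩ := h1 ε₁ (ρ / 2) η hε1 (by positivity) hη
  obtain ⟨c₂, T₂, hc2, hT2, hNum⟩ := h7 k Λ hk hΛ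
  obtain ⟨C₀, hC0⟩ : ∃ C₀ : ℝ, C₀ = max (C₂ * (1 + Λ)) 42 := ⟨_, rfl⟩
  have hC0a : C₂ * (1 + Λ) ≤ C₀ := by
    rw [hC0]
    exact le_max_left _ _
  have hC0b : 42 ≤ C₀ := by
    rw [hC0]
    exact le_max_right _ _
  have hC0c : C₂ ≤ C₀ := by
    refine le_trans ?_ hC0a
    nlinarith
  obtain ⟨R, c₁, hR1, hc1, hRv⟩ := h4 B c₀ C₀ hB1 hc0p (by linarith)
  obtain ⟨L₀, hL₀⟩ := eventually_atTop.1 hSys
  refine ⟨c₁ * c₂, R, mul_pos hc1 hc2, hR1, ?_⟩
  intro θ hθ hθpi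
  obtain ⟨T₁, -, hLoT⟩ := hLo Λ θ hΛ hθ hθpi
  obtain ⟨T₃, -, hBad⟩ := hBadθ ε₁ hε1 hε1b θ hθ hθpi
  refine ⟨max (max T₁ T₂) (max T₃ (Real.exp L₀)),
    hT2.trans ((le_max_right _ _).trans (le_max_left _ _)), ?_⟩
  intro T hTT V hV ω hω
  have hTa : T₁ ≤ T := ((le_max_left _ _).trans (le_max_left _ _)).trans hTT
  have hTb : T₂ ≤ T := ((le_max_right _ _).trans (le_max_left _ _)).trans hTT
  have hTd : T₃ ≤ T := ((le_max_left _ _).trans (le_max_right _ _)).trans hTT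
  have hTc : Real.exp L₀ ≤ T := ((le_max_right _ _).trans (le_max_right _ _)).trans hTT
  have hTp : 0 < T := by linarith
  have hL : L₀ ≤ Real.log T := by
    rw [← Real.log_exp L₀]
    exact Real.log_le_log (Real.exp_pos _) hTc
  obtain ⟨M, S, l, y, hsys, hΛs⟩ := hL₀ (Real.log T) hL
  obtain ⟨hs1, hβ, hnum⟩ := hNum T (st M S) V hTb hsys.up hΛs hV
  have hLp : 0 ≤ Real.log T := Real.log_nonneg (by linarith)
  obtain ⟨s, hs⟩ : ∃ s : ℝ, s = st M S := ⟨_, rfl⟩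
  rw [← hs] at hs1 hβ hnum hΛs
  obtain ⟨β, hβd⟩ : ∃ β : ℝ, β = V / s := ⟨_, rfl⟩
  rw [← hβd] at hβ hnum
  rw [← hBk] at hβ
  have hs0 : 0 < s := by linarith
  have hVs : V = β * s := by
    rw [hβd]
    field_simp
  obtain ⟨K, hK⟩ : ∃ K : ℕ, K = ⌈Real.log T / 200 + |V|⌉₊ + 1 := ⟨_, rfl⟩
  have hK1 : 1 ≤ K := by omega
  have hK2 : Real.log T / 200 + |V| ≤ K := by
    rw [hK]
    push_cast
    linarith [Nat.le_ceil (Real.log T / 200 + |V|)]
  have hK1r : (1 : ℝ) ≤ K := by exact_mod_cast hK1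
  obtain ⟨X, hX⟩ : ∃ X : ℝ, X = Xx M S K β := ⟨_, rfl⟩
  have hX' : X = Real.exp (β ^ 2 * s) * Th K s := by
    rw [hX, hs]
    rfl
  have hTh := h6 K s hK1 hs1
  have hTh0 : 0 < Th K s := lt_of_lt_of_le (by positivity) hTh
  have hX0 : 0 < X := by
    rw [hX']
    positivity
  obtain ⟨Y, hY⟩ : ∃ Y : ℝ, Y = θ * X := ⟨_, rfl⟩
  have hY0 : 0 < Y := by
    rw [hY]
    positivity
  have hD0 : 0 ≤ Real.log T * Real.exp (-s) := by positivity
  have hD1 : Real.log T * Real.exp (-s) ≤ Λ := by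
    rw [Real.exp_neg, ← div_eq_mul_inv, div_le_iff₀ (Real.exp_pos _)]
    exact hΛs
  have hBad' := fun V' : ℝ => hBad T hTd M S l y η hη hηηb hsys (hs ▸ hs1) K β V' ω hK1 hβ hω
  rw [← hs, ← hX] at hBad'
  have hLo' := hLoT T hTa ε₁ (ρ / 2) η hε1 hε1a (by positivity) (by linarith) hη hηηa M S l y
    hsys (hs ▸ hΛs) K β ω hK1 hβ hω
  rw [← hs, ← hX, ← hVs, ← hc0] at hLo'
  have h0' : V + ((0 : ℤ) : ℝ) = V := by simp
  -- boundedness
  have hlin : Continuous fun u : ℝ => T * u := continuous_const.mul continuous_id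
  obtain ⟨b₁, hb₁⟩ := bdd hw (cont_az.comp hlin)
  obtain ⟨b₂, hb₂⟩ := bdd hw ((cont_Nb hPc M S l β).comp hlin)
  obtain ⟨b₃, hb₃⟩ := bdd hw ((cont_Nb hPc M S l (β - 1)).comp hlin)
  obtain ⟨b₄, hb₄⟩ := bdd hw ((cont_Gm hPc M S l K).comp hlin)
  obtain ⟨Bd, hBd⟩ : ∃ Bd : ℝ, Bd = max (max b₁ b₂) (max b₃ b₄) := ⟨_, rfl⟩
  have hBd1 : b₁ ≤ Bd := by
    rw [hBd]
    exact (le_max_left _ _).trans (le_max_left _ _)
  have hBd2 : b₂ ≤ Bd := by
    rw [hBd]
    exact (le_max_right _ _).trans (le_max_left _ _)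
  have hBd3 : b₃ ≤ Bd := by
    rw [hBd]
    exact (le_max_left _ _).trans (le_max_right _ _)
  have hBd4 : b₄ ≤ Bd := by
    rw [hBd]
    exact (le_max_right _ _).trans (le_max_right _ _)
  have hbm : ∀ j, MeasurableSet {u : ℝ | ρ * l j < ‖PS (S j) (T * u)‖} := fun j =>
    measurableSet_lt measurable_const (((hPc (S j)).comp hlin).norm.measurable)
  have hsm : MeasurableSet (sec θ ω (zf T)) := sec_meas (zf_cont h0.2.1 T) θ ω
  -- integrals with respect to the restricted measure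
  have hI : ∀ f : ℝ → ℝ, ∫ x, f x ∂((nu w).restrict (sec θ ω (zf T))) =
      ∫ x in sec θ ω (zf T), w x * f x := fun f => nu_sint hw f hsm
  have hIb : ∀ (f : ℝ → ℝ) (j : ℕ), ∫ x in {u : ℝ | ρ * l j < ‖PS (S j) (T * u)‖}, f x
      ∂((nu w).restrict (sec θ ω (zf T))) =
      ∫ x in sec θ ω (zf T) ∩ {u : ℝ | ρ * l j < ‖PS (S j) (T * u)‖}, w x * f x := by
    intro f j
    rw [Measure.restrict_restrict (hbm j), Set.inter_comm, nu_sint hw f (hsm.inter (hbm j))]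
  have hτs : ∑ j ∈ Finset.range M, C₂ * (1 + Real.log T * Real.exp (-s)) *
      Real.exp (-(ρ / 2 * l j)) ≤ c₀ / 8 := by
    rw [← Finset.mul_sum, mul_assoc]
    have h2 := hsys.dec
    rw [← hs] at h2
    have h3 := mul_le_mul_of_nonneg_left h2 hC2p.le
    linarith
  have hrv : IsRv B c₀ C₀ ((nu w).restrict (sec θ ω (zf T))) M (fun u => az (T * u))
      (fun u => Nb M S l β (T * u))
      (fun u => Nb M S l (β - 1) (T * u)) (fun u => Sr M S (T * u))
      (fun n u => ‖Ph M S l K (V + n) (T * u)‖) (fun j => {u | ρ * l j < ‖PS (S j) (T * u)‖})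
      (fun j => C₂ * (1 + Real.log T * Real.exp (-s)) * Real.exp (-(ρ / 2 * l j)))
      (K : ℝ) K β V Y Bd := by
    constructor
    · exact (cont_az.comp hlin).measurable
    · exact ((cont_Nb hPc M S l β).comp hlin).measurable
    · exact ((cont_Nb hPc M S l (β - 1)).comp hlin).measurable
    · exact ((cont_Sr hPc M S).comp hlin).measurable
    · exact fun n => (((cont_Ph hPc M S l K (V + n)).comp hlin).norm).measurable
    · exact hbm
    · exact fun x => ⟨norm_nonneg _, norm_nonneg _, norm_nonneg _, fun n => norm_nonneg _⟩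
    · exact ae_restrict_of_ae (nu_ae hw _ fun x hx => ⟨(hb₁ x hx).trans hBd1,
        (hb₂ x hx).trans hBd2, (hb₃ x hx).trans hBd3, fun n =>
          (Ph_le M S l K (V + n) (T * x)).trans ((hb₄ x hx).trans hBd4)⟩)
    · exact hβ
    · exact hY0
    · exact hK1r
    · exact ⟨fun j _ => by positivity, hτs⟩
    · intro n
      rw [hI]
      refine (hBad' (V + n)).1.trans ?_
      rw [hY, ← mul_assoc]
      exact mul_le_mul_of_nonneg_right (mul_le_mul_of_nonneg_right hC0c hθ.le) hX0.le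
    · intro j hj
      rw [hIb]
      simp only [h0']
      refine ((hBad' V).2.2.1 j hj).trans ?_
      have hE := (Real.exp_pos (-(ρ / 2 * (l j : ℝ)))).le
      have hle : C₂ * θ * Real.exp (-(ρ / 2 * l j)) ≤
          C₂ * (1 + Real.log T * Real.exp (-s)) * Real.exp (-(ρ / 2 * l j)) * θ := by
        have h2 : 0 ≤ C₂ * θ * (Real.log T * Real.exp (-s)) * Real.exp (-(ρ / 2 * l j)) := by
          positivity
        nlinarith
      calc C₂ * θ * Real.exp (-(ρ / 2 * l j)) * X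
          ≤ C₂ * (1 + Real.log T * Real.exp (-s)) * Real.exp (-(ρ / 2 * l j)) * θ * X :=
            mul_le_mul_of_nonneg_right hle hX0.le
        _ = C₂ * (1 + Real.log T * Real.exp (-s)) * Real.exp (-(ρ / 2 * l j)) * Y := by
            rw [hY]
            ring
    · rw [hI]
      simp only [h0']
      refine ((hBad' V).2.1).trans ?_
      have hle : C₂ * θ * (1 + Real.log T * Real.exp (-s)) ≤ C₀ * θ := by
        have h2 : C₂ * (1 + Real.log T * Real.exp (-s)) ≤ C₀ :=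
          (mul_le_mul_of_nonneg_left (by linarith) hC2p.le).trans hC0a
        nlinarith
      calc C₂ * θ * (1 + Real.log T * Real.exp (-s)) * X ≤ C₀ * θ * X :=
            mul_le_mul_of_nonneg_right hle hX0.le
        _ = C₀ * Y := by
            rw [hY]
            ring
    · intro j hj
      rw [hIb]
      simp only [h0']
      refine ((hBad' V).2.2.2 j hj).trans (le_of_eq ?_)
      rw [hY]
      ring
    · rw [hI]
      simp only [h0']
      refine le_trans (le_of_eq ?_) hLo'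
      rw [hY]
      ring
    · intro x hx
      have hG : T * x ∈ Gd M S l (1 / (9 * (B + 1))) := by
        intro j hj
        have h2 : ¬ (ρ * l j < ‖PS (S j) (T * x)‖) := hx j hj
        rw [← hρ]
        exact not_lt.1 h2
      obtain ⟨hg1, hg2, hg3⟩ := h5 B ε₁ (ρ / 2) η (Real.log T) M S l y hB1 (by positivity)
        (by linarith) hη100 hsys (T * x) hG
      have hβ' := abs_le.1 hβ
      have hg4 := hg2 (β / 2) (β / 2) (abs_le.2 ⟨by linarith, by linarith⟩)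
        (abs_le.2 ⟨by linarith, by linarith⟩)
      have hg5 := hg2 ((β - 1) / 2) ((β - 1) / 2) (abs_le.2 ⟨by linarith, by linarith⟩)
        (abs_le.2 ⟨by linarith, by linarith⟩)
      rw [show β / 2 + β / 2 = β by ring] at hg4
      rw [show (β - 1) / 2 + (β - 1) / 2 = β - 1 by ring] at hg5
      have hSV : |Sr M S (T * x) - V| ≤ K :=
        (abs_sub _ _).trans ((add_le_add hg1 le_rfl).trans hK2)
      simp only [h0']
      refine ⟨hg4.1, hg4.2, hg5.1, hg5.2, ?_, ?_, hSV⟩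
      · refine ((hg3 K V hK1).2 hSV).trans ?_
        have h2 : 0 < 1 + |Sr M S (T * x) - V| := by positivity
        rw [div_le_div_iff_of_pos_right h2]
        exact mul_le_mul_of_nonneg_right hC0b (by linarith)
      · intro n hn
        refine (hg3 K (V + n) hK1).1 ?_
        rw [show Sr M S (T * x) - (V + n) = Sr M S (T * x) - V - n by ring]
        exact hn
  have hfinw := nu_fin hw
  have hconc := hRv ((nu w).restrict (sec θ ω (zf T))) M _ _ _ _ _ _ _ _ _ _ _ _ _ hrv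
  have hmA : MeasurableSet {x : ℝ | Real.exp (V - R) ≤ az (T * x) ∧
      az (T * x) ≤ Real.exp (V + R)} :=
    (measurableSet_le measurable_const (cont_az.comp hlin).measurable).inter
      (measurableSet_le (cont_az.comp hlin).measurable measurable_const)
  have hm2 : ((nu w).restrict (sec θ ω (zf T))).real {x : ℝ | Real.exp (V - R) ≤ az (T * x) ∧
      az (T * x) ≤ Real.exp (V + R)} ≤
      volume.real {u | w u ≠ 0 ∧ u ∈ sec θ ω (zf T) ∧ Real.exp (V - R) ≤ az (T * u) ∧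
        az (T * u) ≤ Real.exp (V + R)} := by
    have h2 : ((nu w).restrict (sec θ ω (zf T))).real {x : ℝ | Real.exp (V - R) ≤ az (T * x) ∧
        az (T * x) ≤ Real.exp (V + R)} = (nu w).real (sec θ ω (zf T) ∩
        {x : ℝ | Real.exp (V - R) ≤ az (T * x) ∧ az (T * x) ≤ Real.exp (V + R)}) := by
      unfold Measure.real
      rw [Measure.restrict_apply hmA, Set.inter_comm]
    rw [h2]
    exact nu_le hw (hsm.inter hmA)
  refine le_trans ?_ (hconc.trans hm2)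
  rw [mul_assoc c₁ c₂ θ, mul_assoc c₁]
  refine mul_le_mul_of_nonneg_left ?_ hc1.le
  rw [hY, hX']
  exact fin_ineq θ s β V K (Th K s) c₂ _ hθ (by linarith) hs0 hVs hTh hnum

end Pool.Agent.Work.MP_56b8f5_nt.SX
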