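import Pool.Agent.Work.MP_56b8f5_nt.SX.Stmts

/-!
MP_56b8f5_nt, block SX, item Y3 (GnU) (helper46): oscillating harmonics of products.
-/

set_option autoImplicit false

open MeasureTheory Set Filter Topology

noncomputable section

namespace Pool.Agent.Work.MP_56b8f5_nt.SX

open Pool.Agent.Work.MP_56b8f5_nt.EM Pool.Agent.Work.MP_56b8f5_nt.WM
open Pool.Agent.Work.MP_56b8f5_nt.WA Pool.Agent.Work.MP_56b8f5_nt.SH

namespace I_GnU

theorem nm_nonneg (α : DA) : 0 ≤ nm α := by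
  unfold nm
  exact Finsupp.sum_nonneg fun _ _ => norm_nonneg _

theorem bf_zero (α β : DA) : bf (fun _ _ => 0) α β = 0 := by
  unfold bf
  simp only [Finsupp.sum, mul_zero, Finset.sum_const_zero]

/-- The error term. -/
theorem err {C T a b : ℝ} (h0 : 0 ≤ C) (hT : 1 ≤ T) (hb0 : 0 ≤ b)
    (ha : a ≤ Real.exp (Real.log T / 32)) (hb : b ≤ Real.exp (Real.log T / 32)) :
    C / T ^ (1 / 12 : ℝ) * a * b ≤ C / T ^ (1 / 48 : ℝ) := by
  have hT0 : 0 < T := lt_of_lt_of_le one_pos hT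
  have e1 : Real.exp (Real.log T / 32) = T ^ (1 / 32 : ℝ) := by
    rw [Real.rpow_def_of_pos hT0]
    congr 1
    ring
  rw [e1] at ha hb
  have h1 : a * b ≤ T ^ (1 / 16 : ℝ) := by
    calc a * b ≤ T ^ (1 / 32 : ℝ) * T ^ (1 / 32 : ℝ) :=
          mul_le_mul ha hb hb0 (Real.rpow_nonneg hT0.le _)
      _ = T ^ (1 / 16 : ℝ) := by
          rw [← Real.rpow_add hT0]
          norm_num
  have e2 : T ^ (1 / 12 : ℝ) = T ^ (1 / 16 : ℝ) * T ^ (1 / 48 : ℝ) := by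
    rw [← Real.rpow_add hT0]
    norm_num
  have hp : 0 < T ^ (1 / 16 : ℝ) := Real.rpow_pos_of_pos hT0 _
  have hq : 0 < T ^ (1 / 48 : ℝ) := Real.rpow_pos_of_pos hT0 _
  rw [mul_assoc, e2, div_mul_eq_mul_div, div_le_div_iff₀ (mul_pos hp hq) hq]
  calc C * (a * b) * T ^ (1 / 48 : ℝ) ≤ C * T ^ (1 / 16 : ℝ) * T ^ (1 / 48 : ℝ) :=
        mul_le_mul_of_nonneg_right (mul_le_mul_of_nonneg_left h1 h0) hq.le
    _ = C * (T ^ (1 / 16 : ℝ) * T ^ (1 / 48 : ℝ)) := by ring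

/-- The general form. -/
theorem gen (hL : SH.S_Lin) (hN : SH.S_NmL) {w : ℝ → ℝ} (hw : IsW w) {Z : ℝ → ℂ}
    (hZ : Continuous Z) {C T : ℝ} (hC : 0 ≤ C) (hT1 : 1 ≤ T)
    (hP : ∀ h l : ℕ, h ≠ 0 → l ≠ 0 → (h : ℝ) ^ 8 ≤ T → (l : ℝ) ^ 8 ≤ T →
      ‖∫ u : ℝ, (w u : ℂ) * (Z (T * u) * (chi (T * u) h * chi (-(T * u)) l))‖ ≤
        C / T ^ (1 / 12 : ℝ))
    {ε c η : ℝ} {M : ℕ} {S : ℕ → Finset ℕ} {l : ℕ → ℕ} {y : ℕ → ℝ}
    (hsys : IsSys ε c η (Real.log T) M S l y) {P Q : ℕ → Polynomial ℂ} (hPU : IsU M l P)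
    (hQU : IsU M l Q) :
    ‖∫ u : ℝ, (w u : ℂ) * (Z (T * u) * (ev (T * u) (al M S P) *
      ev (-(T * u)) (al M S Q)))‖ ≤ C / T ^ (1 / 48 : ℝ) := by
  have hTp : 0 < T := lt_of_lt_of_le one_pos hT1
  obtain ⟨na, sa⟩ := hN ε c η (Real.log T) M S l y hsys P hPU
  obtain ⟨nb, sb⟩ := hN ε c η (Real.log T) M S l y hsys Q hQU
  rw [Real.exp_log hTp] at sa sb
  rw [hL.1 w hw Z hZ T (al M S P) (al M S Q)]
  have h := hL.2 (fun a b => ∫ u : ℝ, (w u : ℂ) * (Z (T * u) *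
    (chi (T * u) a * chi (-(T * u)) b))) (fun _ _ => 0)
    (C / T ^ (1 / 12 : ℝ)) (al M S P) (al M S Q) (fun a ha b hb => by
      rw [sub_zero]
      exact hP a b (sa a ha).1 (sb b hb).1 (sa a ha).2 (sb b hb).2)
  rw [bf_zero, sub_zero] at h
  exact h.trans (err hC hT1 (nm_nonneg _) na nb)

end I_GnU

open I_GnU in
theorem GnU_pf (h1 : S_PrU0) (h2 : S_PrU2) (h3 : SH.S_Lin) (h4 : SH.S_NmL) (h0 : WA.S_UZ) :
    S_GnU := by
  intro w hw a ha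
  obtain ⟨C₁, T₁, hC₁, hT₁, P₁⟩ := h1 w hw a ha
  obtain ⟨C₂, T₂, hC₂, hT₂, P₂⟩ := h2 w hw a ha
  obtain ⟨hcU, hcz, -, -⟩ := h0
  refine ⟨max C₁ C₂, max T₁ T₂, hC₁.trans (le_max_left _ _), hT₁.trans (le_max_left _ _), ?_⟩
  intro T hT ε c η M S l y hsys P Q hP hQ
  have hTa : T₁ ≤ T := (le_max_left _ _).trans hT
  have hTb : T₂ ≤ T := (le_max_right _ _).trans hT
  have hT1 : 1 ≤ T := hT₁.trans hTa
  have hTp : 0 < T := lt_of_lt_of_le one_pos hT1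
  have hq : 0 < T ^ (1 / 48 : ℝ) := Real.rpow_pos_of_pos hTp _
  constructor
  · have hZ : Continuous fun t : ℝ => WA.U t ^ a := hcU.pow a
    refine (gen h3 h4 hw hZ hC₁ hT1 (P₁ T hTa) hsys hP hQ).trans ?_
    exact div_le_div_of_nonneg_right (le_max_left _ _) hq.le
  · have hZ : Continuous fun t : ℝ => WA.U t ^ a * (starRingEnd ℂ) (zt t) ^ 2 :=
      (hcU.pow a).mul ((Complex.continuous_conj.comp hcz).pow 2)
    have P₂' : ∀ h l : ℕ, h ≠ 0 → l ≠ 0 → (h : ℝ) ^ 8 ≤ T → (l : ℝ) ^ 8 ≤ T →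
        ‖∫ u : ℝ, (w u : ℂ) * ((WA.U (T * u) ^ a * (starRingEnd ℂ) (zt (T * u)) ^ 2) *
          (chi (T * u) h * chi (-(T * u)) l))‖ ≤ C₂ / T ^ (1 / 12 : ℝ) := by
      intro h l hh hl h8 l8
      have := P₂ T hTb h l hh hl h8 l8
      simpa only [mul_assoc] using this
    have := gen h3 h4 hw hZ hC₂ hT1 P₂' hsys hP hQ
    refine le_trans ?_ (this.trans (div_le_div_of_nonneg_right (le_max_right _ _) hq.le))
    simp only [mul_assoc]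
    exact le_rfl

end Pool.Agent.Work.MP_56b8f5_nt.SX
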