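import Pool.Agent.Work.MP_56b8f5_nt.SX.Stmts

/-!
MP_56b8f5_nt, block SX, item Y13 (MomS): moments in short windows.
-/

set_option autoImplicit false

open MeasureTheory Set Filter Topology

noncomputable section

namespace Pool.Agent.Work.MP_56b8f5_nt.SX

open Pool.Agent.Work.MP_56b8f5_nt.EM Pool.Agent.Work.MP_56b8f5_nt.WM

namespace I_MomS

theorem cont_zt : Continuous fun t : ℝ => riemannZeta (1 / 2 + t * Complex.I) := by
  rw [continuous_iff_continuousAt]
  intro t
  have h1 : (1 / 2 + (t : ℂ) * Complex.I) ≠ 1 := by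
    intro h
    have := congrArg Complex.re h
    norm_num at this
  exact ContinuousAt.comp (f := fun t : ℝ => (1 / 2 + (t : ℂ) * Complex.I))
    (differentiableAt_riemannZeta h1).continuousAt (by fun_prop)

/-- The lower bound for the integrand. -/
theorem low {k : ℕ} {κ V C x : ℝ} (hκ : |κ| ≤ k) (hC : 0 ≤ C) (h1 : Real.exp (V - C) ≤ x)
    (h2 : x ≤ Real.exp (V + C)) : Real.exp (2 * κ * V - 2 * k * C) ≤ x ^ (2 * κ : ℝ) := by
  have hx : 0 < x := lt_of_lt_of_le (Real.exp_pos _) h1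
  have h3 : V - C ≤ Real.log x := (Real.le_log_iff_exp_le hx).mpr h1
  have h4 : Real.log x ≤ V + C := (Real.log_le_iff_le_exp hx).mpr h2
  rw [Real.rpow_def_of_pos hx]
  apply Real.exp_le_exp.mpr
  have h5 : |Real.log x - V| ≤ C := abs_le.mpr ⟨by linarith, by linarith⟩
  have h6 : |(Real.log x - V) * κ| ≤ C * k := by
    rw [abs_mul]
    exact mul_le_mul h5 hκ (abs_nonneg _) hC
  have h7 := (abs_le.mp h6).1
  nlinarith

/-- The upper bound for the integrand. -/
theorem upp {k : ℕ} {κ M x : ℝ} (hκ : |κ| ≤ k) (h1 : Real.exp (-M) ≤ x) (h2 : x ≤ Real.exp M) :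
    x ^ (2 * κ : ℝ) ≤ Real.exp (2 * k * M) := by
  have hx : 0 < x := lt_of_lt_of_le (Real.exp_pos _) h1
  have h3 : -M ≤ Real.log x := (Real.le_log_iff_exp_le hx).mpr h1
  have h4 : Real.log x ≤ M := (Real.log_le_iff_le_exp hx).mpr h2
  rw [Real.rpow_def_of_pos hx]
  apply Real.exp_le_exp.mpr
  have h5 : |Real.log x| ≤ M := abs_le.mpr ⟨by linarith, h4⟩
  have hM : 0 ≤ M := (abs_nonneg _).trans h5
  have h6 : |Real.log x * κ| ≤ M * k := by
    rw [abs_mul]
    exact mul_le_mul h5 hκ (abs_nonneg _) hM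
  have h7 := (abs_le.mp h6).2
  nlinarith

/-- The set of Y12. -/
def A (θ T C : ℝ) (ω : ℂ) (V : ℝ) : Set ℝ :=
  {t : ℝ | T ≤ t ∧ t ≤ 2 * T ∧
    Real.cos θ * ‖riemannZeta (1 / 2 + t * Complex.I)‖ <
      ((starRingEnd ℂ) ω * riemannZeta (1 / 2 + t * Complex.I)).re ∧
    Real.exp (V - C) ≤ ‖riemannZeta (1 / 2 + t * Complex.I)‖ ∧
    ‖riemannZeta (1 / 2 + t * Complex.I)‖ ≤ Real.exp (V + C)}

/-- The set of Y13. -/
def B (θ T C : ℝ) (ω : ℂ) (M : ℝ) : Set ℝ :=
  {t : ℝ | T ≤ t ∧ t ≤ 2 * T ∧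
    Real.cos θ * ‖riemannZeta (1 / 2 + t * Complex.I)‖ <
      ((starRingEnd ℂ) ω * riemannZeta (1 / 2 + t * Complex.I)).re ∧
    Real.exp (M - C) ≤ ‖riemannZeta (1 / 2 + t * Complex.I)‖ ∧
    ‖riemannZeta (1 / 2 + t * Complex.I)‖ ≤ Real.exp (M + C)}

theorem meas (θ T C : ℝ) (ω : ℂ) (V : ℝ) : MeasurableSet (A θ T C ω V) := by
  have hz := cont_zt
  have h1 : Measurable fun t : ℝ => ‖riemannZeta (1 / 2 + t * Complex.I)‖ := hz.norm.measurable
  have h2 : Measurable fun t : ℝ =>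
      ((starRingEnd ℂ) ω * riemannZeta (1 / 2 + t * Complex.I)).re :=
    (Complex.continuous_re.comp (continuous_const.mul hz)).measurable
  unfold A
  apply MeasurableSet.inter (measurableSet_le measurable_const measurable_id)
  apply MeasurableSet.inter (measurableSet_le measurable_id measurable_const)
  apply MeasurableSet.inter (measurableSet_lt (measurable_const.mul h1) h2)
  exact MeasurableSet.inter (measurableSet_le measurable_const h1)
    (measurableSet_le h1 measurable_const)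

theorem intOn {k : ℕ} {κ : ℝ} (hκ : |κ| ≤ k) (θ T C : ℝ) (ω : ℂ) (V : ℝ) :
    IntegrableOn (fun t : ℝ => ‖riemannZeta (1 / 2 + t * Complex.I)‖ ^ (2 * κ : ℝ))
      (A θ T C ω V) := by
  have hz := cont_zt
  have hfin : volume (A θ T C ω V) < ⊤ := by
    refine lt_of_le_of_lt (measure_mono (t := Icc T (2 * T)) ?_) measure_Icc_lt_top
    intro t ht
    exact ⟨ht.1, ht.2.1⟩
  refine IntegrableOn.of_bound hfin ?_ (Real.exp (2 * k * (|V| + |C|))) ?_
  · exact ((hz.norm.measurable.pow_const _).aestronglyMeasurable)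
  · refine (ae_restrict_iff' (meas θ T C ω V)).mpr (Eventually.of_forall fun t ht => ?_)
    have h1 := ht.2.2.2.1
    have h2 := ht.2.2.2.2
    rw [Real.norm_of_nonneg (Real.rpow_nonneg (norm_nonneg _) _)]
    apply upp hκ
    · refine le_trans (Real.exp_le_exp.mpr ?_) h1
      have := neg_abs_le V
      have := le_abs_self C
      linarith
    · refine le_trans h2 (Real.exp_le_exp.mpr ?_)
      have := le_abs_self V
      have := le_abs_self C
      linarith

end I_MomS

open I_MomS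

theorem MomS_pf (h1 : S_MainS) : S_MomS := by
  intro k hk
  obtain ⟨c, C, hc, hC, hmain⟩ := h1 (k + 1) (by omega)
  refine ⟨c * Real.exp (-(9 * C ^ 2) - 2 * k * C), 4 * C, by positivity, by linarith, ?_⟩
  intro θ hθ hθ'
  have hLL : Tendsto (fun T : ℝ => Real.log (Real.log T)) atTop atTop :=
    Real.tendsto_log_atTop.comp Real.tendsto_log_atTop
  filter_upwards [hmain θ hθ hθ', hLL.eventually_ge_atTop ((3 * C) ^ 2), eventually_ge_atTop 3]
    with T hT hLT hT3
  intro κ H hκ hH hH' ω hω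
  set LL : ℝ := Real.log (Real.log T) with hLLdef
  have hC0 : 0 < C := by linarith
  have hLpos : 0 < LL := lt_of_lt_of_le (by positivity) hLT
  have hsq : Real.sqrt LL ^ 2 = LL := Real.sq_sqrt hLpos.le
  have hs0 : 0 < Real.sqrt LL := Real.sqrt_pos.mpr hLpos
  have hs1 : 3 * C ≤ Real.sqrt LL := Real.le_sqrt_of_sq_le hLT
  have hT0 : 0 < T := by linarith
  have hlogT : 0 < Real.log T := Real.log_pos (by linarith)
  set n : ℕ := ⌊H⌋₊ with hn
  have hnH : (n : ℝ) ≤ H := Nat.floor_le (by linarith)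
  have hHn : H ≤ n + 1 := (Nat.lt_floor_add_one H).le
  set Vi : ℕ → ℝ := fun i => κ * LL + 3 * C * i with hVi
  -- the points
  have hi : ∀ i ∈ Finset.range (n + 1), (i : ℝ) ≤ H := by
    intro i hi
    have h2 : i ≤ n := by
      have := Finset.mem_range.mp hi
      omega
    exact le_trans (by exact_mod_cast h2) hnH
  have hV : ∀ i ∈ Finset.range (n + 1), |Vi i| ≤ ((k + 1 : ℕ) : ℝ) * LL := by
    intro i hi'
    have h2 := hi i hi'
    have h3 : |κ * LL| ≤ k * LL := by
      rw [abs_mul, abs_of_pos hLpos]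
      exact mul_le_mul_of_nonneg_right hκ hLpos.le
    have h4 : |3 * C * (i : ℝ)| ≤ LL := by
      rw [abs_of_nonneg (by positivity)]
      have h5 : (i : ℝ) ≤ Real.sqrt LL := h2.trans hH'
      nlinarith [mul_le_mul hs1 h5 (Nat.cast_nonneg i) hs0.le]
    push_cast
    have h6 : |Vi i| ≤ |κ * LL| + |3 * C * (i : ℝ)| := abs_add_le _ _
    linarith
  -- the sets
  have hsub : ∀ i ∈ Finset.range (n + 1), A θ T C ω (Vi i) ⊆ B θ T (4 * C * H) ω (κ * LL) := by
    intro i hi' t ht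
    obtain ⟨t1, t2, t3, t4, t5⟩ := ht
    have h2 := hi i hi'
    have h0 : (0 : ℝ) ≤ i := Nat.cast_nonneg i
    refine ⟨t1, t2, t3, le_trans (Real.exp_le_exp.mpr ?_) t4,
      le_trans t5 (Real.exp_le_exp.mpr ?_)⟩
    · simp only [hVi]
      nlinarith
    · simp only [hVi]
      nlinarith
  have hdisj : Set.Pairwise (↑(Finset.range (n + 1)) : Set ℕ)
      (Function.onFun Disjoint fun i => A θ T C ω (Vi i)) := by
    have key : ∀ i j : ℕ, i < j → Disjoint (A θ T C ω (Vi i)) (A θ T C ω (Vi j)) := by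
      intro i j hij
      rw [Set.disjoint_left]
      intro t ht ht'
      have h2 := ht.2.2.2.2
      have h3 := ht'.2.2.2.1
      have h4 := Real.exp_le_exp.mp (h3.trans h2)
      have h5 : (i : ℝ) + 1 ≤ j := by exact_mod_cast hij
      simp only [hVi] at h4
      nlinarith
    intro i _ j _ hij
    rcases lt_or_gt_of_ne hij with h | h
    · exact key i j h
    · exact (key j i h).symm
  -- the integral
  set f : ℝ → ℝ := fun t => ‖riemannZeta (1 / 2 + t * Complex.I)‖ ^ (2 * κ : ℝ) with hf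
  have hf0 : ∀ t, 0 ≤ f t := fun t => Real.rpow_nonneg (norm_nonneg _) _
  have hIB : IntegrableOn f (B θ T (4 * C * H) ω (κ * LL)) :=
    intOn hκ θ T (4 * C * H) ω (κ * LL)
  have hIA : ∀ i ∈ Finset.range (n + 1), IntegrableOn f (A θ T C ω (Vi i)) :=
    fun i _ => intOn hκ θ T C ω (Vi i)
  have hstep : ∀ i ∈ Finset.range (n + 1),
      c * Real.exp (-(9 * C ^ 2) - 2 * k * C) * θ / Real.sqrt LL * (T * Real.exp (κ ^ 2 * LL)) ≤
        ∫ t in A θ T C ω (Vi i), f t := by
    intro i hi'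
    have h2 := hT (Vi i) (hV i hi') ω hω
    have hfin : volume (A θ T C ω (Vi i)) ≠ ⊤ := by
      refine (lt_of_le_of_lt (measure_mono (t := Icc T (2 * T)) ?_) measure_Icc_lt_top).ne
      intro t ht
      exact ⟨ht.1, ht.2.1⟩
    have h3 : Real.exp (2 * κ * Vi i - 2 * k * C) * volume.real (A θ T C ω (Vi i)) ≤
        ∫ t in A θ T C ω (Vi i), f t :=
      setIntegral_ge_of_const_le_real (meas θ T C ω (Vi i)) hfin
        (fun t ht => low hκ hC0.le ht.2.2.2.1 ht.2.2.2.2) (hIA i hi')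
    refine le_trans ?_ h3
    have h4 : c * θ * T * (Real.exp (-(Vi i ^ 2 / LL)) / Real.sqrt LL) ≤
        volume.real (A θ T C ω (Vi i)) := h2
    refine le_trans ?_ (mul_le_mul_of_nonneg_left h4 (Real.exp_pos _).le)
    have h5 : κ ^ 2 * LL + (-(9 * C ^ 2) - 2 * k * C) ≤
        2 * κ * Vi i - 2 * k * C + -(Vi i ^ 2 / LL) := by
      have h6 : Vi i ^ 2 / LL = κ ^ 2 * LL + 6 * κ * C * i + 9 * C ^ 2 * (i ^ 2 / LL) := by
        simp only [hVi]
        field_simp
        ring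
      have h7 : (i : ℝ) ^ 2 / LL ≤ 1 := by
        rw [div_le_one hLpos, ← hsq]
        exact pow_le_pow_left₀ (Nat.cast_nonneg i) ((hi i hi').trans hH') 2
      rw [h6]
      simp only [hVi]
      nlinarith [mul_le_mul_of_nonneg_left h7 (by positivity : (0 : ℝ) ≤ 9 * C ^ 2)]
    have h8 := Real.exp_le_exp.mpr h5
    rw [Real.exp_add, Real.exp_add] at h8
    have h9 : 0 ≤ c * θ * T / Real.sqrt LL := by positivity
    calc c * Real.exp (-(9 * C ^ 2) - 2 * k * C) * θ / Real.sqrt LL *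
          (T * Real.exp (κ ^ 2 * LL))
        = c * θ * T / Real.sqrt LL *
          (Real.exp (κ ^ 2 * LL) * Real.exp (-(9 * C ^ 2) - 2 * k * C)) := by ring
      _ ≤ c * θ * T / Real.sqrt LL *
          (Real.exp (2 * κ * Vi i - 2 * k * C) * Real.exp (-(Vi i ^ 2 / LL))) :=
          mul_le_mul_of_nonneg_left h8 h9
      _ = Real.exp (2 * κ * Vi i - 2 * k * C) *
          (c * θ * T * (Real.exp (-(Vi i ^ 2 / LL)) / Real.sqrt LL)) := by ring
  have hun : (⋃ i ∈ Finset.range (n + 1), A θ T C ω (Vi i)) ⊆ B θ T (4 * C * H) ω (κ * LL) :=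
    Set.iUnion₂_subset hsub
  have hmono : ∫ t in ⋃ i ∈ Finset.range (n + 1), A θ T C ω (Vi i), f t ≤
      ∫ t in B θ T (4 * C * H) ω (κ * LL), f t :=
    setIntegral_mono_set hIB (Eventually.of_forall hf0) (Eventually.of_forall hun)
  rw [integral_biUnion_finset _ (fun i _ => meas θ T C ω (Vi i)) hdisj hIA] at hmono
  refine le_trans ?_ hmono
  refine le_trans ?_ (Finset.sum_le_sum hstep)
  rw [Finset.sum_const, Finset.card_range, nsmul_eq_mul, Real.rpow_def_of_pos hlogT]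
  have hexp : Real.log (Real.log T) * κ ^ 2 = κ ^ 2 * LL := by
    rw [← hLLdef]
    ring
  rw [hexp]
  have hP : 0 ≤ c * Real.exp (-(9 * C ^ 2) - 2 * k * C) * θ / Real.sqrt LL *
      (T * Real.exp (κ ^ 2 * LL)) := by positivity
  push_cast
  calc c * Real.exp (-(9 * C ^ 2) - 2 * k * C) * θ * (H / Real.sqrt LL) *
        (T * Real.exp (κ ^ 2 * LL))
      = H * (c * Real.exp (-(9 * C ^ 2) - 2 * k * C) * θ / Real.sqrt LL *
        (T * Real.exp (κ ^ 2 * LL))) := by ring
    _ ≤ _ := mul_le_mul_of_nonneg_right hHn hP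

end Pool.Agent.Work.MP_56b8f5_nt.SX
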