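import Pool.Agent.Work.MP_56b8f5_nt.SX.Stmts
import Pool.Agent.Work.MP_56b8f5_nt.SH.I_Kin

/-!
MP_56b8f5_nt, block SX, item Y4 (OsK): oscillating harmonics with the kernel.
-/

set_option autoImplicit false

open MeasureTheory Set Filter Topology

noncomputable section

namespace Pool.Agent.Work.MP_56b8f5_nt.SX

open Pool.Agent.Work.MP_56b8f5_nt.EM Pool.Agent.Work.MP_56b8f5_nt.WM
open Pool.Agent.Work.MP_56b8f5_nt.WA Pool.Agent.Work.MP_56b8f5_nt.SH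

namespace I_OsK

/-- The sum over the pairs of frequencies. -/
theorem tot {w : ℝ → ℝ} (hw : IsW w) (h5 : SH.S_Cha) (h2 : SH.S_Exd) {Z : ℝ → ℂ}
    (hZ : Continuous Z) (M : ℕ) (S : ℕ → Finset ℕ) (l : ℕ → ℕ) (K : ℕ) (T V a b a' b' : ℝ)
    (i r : ℕ) (hr : r = 0 ∨ i < M) (D : ℝ)
    (hb : ∀ k < K, ∀ k' < K,
      ‖∫ u : ℝ, (w u : ℂ) * (Z u * (ev (T * u) (al M S (Ui l a b (xi K k) (xi K k') i r)) *
        ev (-(T * u)) (al M S (Ui l a' b' (xi K k) (xi K k') i r))))‖ ≤ D) :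
    ‖∫ u : ℝ, (w u : ℂ) * (Z u * (NN M S l a b (T * u) *
      (starRingEnd ℂ) (NN M S l a' b' (T * u)) *
      ((‖PS (S i) (T * u)‖ ^ (2 * r) * ‖Ph M S l K V (T * u)‖ ^ 2 : ℝ) : ℂ)))‖ ≤
      (K : ℝ) ^ 2 * D := by
  rw [SH.I_Kin.sumint hw h5 h2 hZ M S l K T V a b a' b' i r hr]
  have e : (K : ℝ) ^ 2 * D = ∑ k ∈ Finset.range K, ∑ k' ∈ Finset.range K, D := by
    rw [Finset.sum_const, Finset.sum_const, Finset.card_range, nsmul_eq_mul, nsmul_eq_mul]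
    ring
  rw [e]
  refine (norm_sum_le _ _).trans (Finset.sum_le_sum fun k hk => ?_)
  refine (norm_sum_le _ _).trans (Finset.sum_le_sum fun k' hk' => ?_)
  rw [norm_mul, SH.I_Kin.norm_ph, one_mul]
  exact hb k (Finset.mem_range.1 hk) k' (Finset.mem_range.1 hk')

end I_OsK

open I_OsK in
theorem OsK_pf (h1 : S_GnU) (h2 : SH.S_Exd) (h3 : SH.S_PolI) (h5 : SH.S_Cha) (h0 : WA.S_UZ) :
    S_OsK := by
  intro w hw B hB
  have hB1 : 0 < 2 * B + 1 := by linarith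
  refine ⟨1 / (2 * B + 1), by positivity, ?_, ?_⟩
  · rw [div_le_one hB1]
    linarith
  intro a ha
  obtain ⟨C, T₀, hC, hT₀, H⟩ := h1 w hw a ha
  refine ⟨C, T₀, hC, hT₀, ?_⟩
  intro T hT ε c η hε hεε M S l y hsys K V a₁ b₁ a₂ b₂ i r hK ha₁ hb₁ ha₂ hb₂ hir
  have hU : ∀ a b ξ ξ' : ℝ, |a| ≤ B → |b| ≤ B → 0 ≤ ξ → ξ ≤ 1 → 0 ≤ ξ' → ξ' ≤ 1 →
      IsU M l (Ui l a b ξ ξ' i r) := by
    intro a b ξ ξ' ha hb hx0 hx1 hx0' hx1'
    refine h3.2.2.2.2 M l (|a| + |b| + (|ξ| + |ξ'|) / 2) _ (fun j => Pol (l j) a b ξ ξ') i r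
      (by positivity) (fun j hj => ⟨?_, h3.2.2.2.1 (l j) a b ξ ξ'⟩) (hir.imp id fun h => h.2)
    have e1 : 1 ≤ ε * l j := hsys.ll j hj
    have e2 : ε * l j ≤ 1 / (2 * B + 1) * l j :=
      mul_le_mul_of_nonneg_right hεε (Nat.cast_nonneg _)
    have e3 : 1 ≤ 1 / (2 * B + 1) * (l j : ℝ) := e1.trans e2
    rw [div_mul_eq_mul_div, one_mul, le_div_iff₀ hB1, one_mul] at e3
    rw [abs_of_nonneg hx0, abs_of_nonneg hx0']
    linarith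
  have hk : ∀ k < K, ∀ k' < K,
      IsU M l (Ui l a₁ b₁ (xi K k) (xi K k') i r) ∧ IsU M l (Ui l a₂ b₂ (xi K k) (xi K k') i r) :=
    fun k hk k' hk' => ⟨hU _ _ _ _ ha₁ hb₁ (SH.I_Kin.xi_nonneg _ _) (SH.I_Kin.xi_le hk)
      (SH.I_Kin.xi_nonneg _ _) (SH.I_Kin.xi_le hk'), hU _ _ _ _ ha₂ hb₂ (SH.I_Kin.xi_nonneg _ _)
      (SH.I_Kin.xi_le hk) (SH.I_Kin.xi_nonneg _ _) (SH.I_Kin.xi_le hk')⟩
  have hr : r = 0 ∨ i < M := hir.imp id fun h => h.1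
  obtain ⟨hcU, hcz, -, -⟩ := h0
  have hcU' : Continuous fun u : ℝ => WA.U (T * u) ^ a :=
    (hcU.comp (by fun_prop : Continuous fun u : ℝ => T * u)).pow a
  have hcz' : Continuous fun u : ℝ => (starRingEnd ℂ) (zt (T * u)) ^ 2 :=
    (Complex.continuous_conj.comp
      (hcz.comp (by fun_prop : Continuous fun u : ℝ => T * u))).pow 2
  have e : C * (K : ℝ) ^ 2 / T ^ (1 / 48 : ℝ) = (K : ℝ) ^ 2 * (C / T ^ (1 / 48 : ℝ)) := by ring
  rw [e]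
  constructor
  · refine tot hw h5 h2 hcU' M S l K T V a₁ b₁ a₂ b₂ i r hr _ fun k hk1 k' hk2 => ?_
    exact (H T hT ε c η M S l y hsys _ _ (hk k hk1 k' hk2).1 (hk k hk1 k' hk2).2).1
  · have hZ : Continuous fun u : ℝ =>
        WA.U (T * u) ^ a * (starRingEnd ℂ) (zt (T * u)) ^ 2 := hcU'.mul hcz'
    have h := tot hw h5 h2 hZ M S l K T V a₁ b₁ a₂ b₂ i r hr
      (C / T ^ (1 / 48 : ℝ)) fun k hk1 k' hk2 => by
        have h := (H T hT ε c η M S l y hsys _ _ (hk k hk1 k' hk2).1 (hk k hk1 k' hk2).2).2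
        simpa only [mul_assoc] using h
    refine le_trans (le_of_eq ?_) h
    congr 1
    refine integral_congr_ae (Eventually.of_forall fun u => ?_)
    simp only
    ring

end Pool.Agent.Work.MP_56b8f5_nt.SX
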