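import Pool.Agent.Work.MP_56b8f5_nt.SX.Stmts
import Pool.Agent.Work.MP_56b8f5_nt.SH.I_Pr0

/-!
MP_56b8f5_nt, block SX, item Y1 (PrU0): pairs.
-/

set_option autoImplicit false

open MeasureTheory Set Filter Topology

noncomputable section

namespace Pool.Agent.Work.MP_56b8f5_nt.SX

open Pool.Agent.Work.MP_56b8f5_nt.EM Pool.Agent.Work.MP_56b8f5_nt.WM
open Pool.Agent.Work.MP_56b8f5_nt.WA Pool.Agent.Work.MP_56b8f5_nt.SH

namespace I_PrU0

lemma int_eq (w : ℝ → ℝ) (Z : ℝ → ℂ) (T : ℝ) (h l : ℕ) (hh : h ≠ 0) (hl : l ≠ 0) :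
    (∫ u : ℝ, (w u : ℂ) * (Z u * (chi (T * u) h * chi (-(T * u)) l))) =
      (Real.exp (-((Real.log h + Real.log l) / 2)) : ℂ) *
        ∫ u : ℝ, (w u : ℂ) * (Z u *
          Complex.exp (Complex.I * (T * u * (Real.log l - Real.log h) : ℝ))) := by
  rw [← integral_const_mul]
  apply integral_congr_ae
  refine Filter.Eventually.of_forall fun u => ?_
  show (w u : ℂ) * (Z u * (chi (T * u) h * chi (-(T * u)) l)) = _
  rw [SH.I_Pr0.chi_mul (T * u) h l hh hl]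
  ring

end I_PrU0

open I_PrU0 in
theorem PrU0_pf (h3 : WA.S_Osc) : S_PrU0 := by
  intro w hw a ha
  obtain ⟨C, T₀, hC, hT₀, hb⟩ := h3 w hw a ha
  refine ⟨C, T₀, hC, hT₀, ?_⟩
  intro T hT h l hh hl hh8 hl8
  have hT1 : 1 ≤ T := hT₀.trans hT
  have hTpos : (0 : ℝ) < T := by linarith
  have hh1 : (1 : ℝ) ≤ h := by exact_mod_cast Nat.one_le_iff_ne_zero.mpr hh
  have hl1 : (1 : ℝ) ≤ l := by exact_mod_cast Nat.one_le_iff_ne_zero.mpr hl
  have hlogh : 0 ≤ Real.log h := Real.log_nonneg hh1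
  have hlogl : 0 ≤ Real.log l := Real.log_nonneg hl1
  have hlam : -(1 / 2 * Real.log T) ≤ Real.log l - Real.log h := by
    have h8 : Real.log ((h : ℝ) ^ 8) ≤ Real.log T := Real.log_le_log (by positivity) hh8
    rw [Real.log_pow] at h8
    push_cast at h8
    linarith
  rw [int_eq w (fun u => WA.U (T * u) ^ a) T h l hh hl, norm_mul]
  have hr : ‖(Real.exp (-((Real.log h + Real.log l) / 2)) : ℂ)‖ ≤ 1 := by
    rw [Complex.norm_real, Real.norm_eq_abs, abs_of_pos (Real.exp_pos _)]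
    apply Real.exp_le_one_iff.mpr
    linarith
  have hpow : T ^ (1 / 12 : ℝ) ≤ T ^ 2 := by
    calc T ^ (1 / 12 : ℝ) ≤ T ^ (2 : ℝ) := Real.rpow_le_rpow_of_exponent_le hT1 (by norm_num)
      _ = T ^ 2 := by norm_cast
  have hTq : 0 < T ^ (1 / 12 : ℝ) := Real.rpow_pos_of_pos hTpos _
  calc _ ≤ 1 * ‖∫ u : ℝ, (w u : ℂ) * (WA.U (T * u) ^ a *
        Complex.exp (Complex.I * (T * u * (Real.log l - Real.log h) : ℝ)))‖ := by gcongr
    _ = _ := one_mul _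
    _ ≤ C / T ^ 2 := hb T hT _ hlam
    _ ≤ C / T ^ (1 / 12 : ℝ) := div_le_div_of_nonneg_left hC hTq hpow

end Pool.Agent.Work.MP_56b8f5_nt.SX
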