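import Pool.Agent.Work.MP_56b8f5_nt.SX.Stmts
import Pool.Agent.Work.MP_56b8f5_nt.WM.I_FMx
import Pool.Agent.Work.MP_56b8f5_nt.WM.I_FMb

/-!
MP_56b8f5_nt, block SX, item Y2 (PrU2): pairs, `U^a conj zeta^2`.
-/

set_option autoImplicit false

open MeasureTheory Set Filter Topology

noncomputable section

namespace Pool.Agent.Work.MP_56b8f5_nt.SX

open Pool.Agent.Work.MP_56b8f5_nt.EM Pool.Agent.Work.MP_56b8f5_nt.WM
open Pool.Agent.Work.MP_56b8f5_nt.WA Pool.Agent.Work.MP_56b8f5_nt.SH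

namespace I_PrU2

open WM.I_FMx (bc bc_nonneg bc_zero term_eq exp_norm w_cont w_comp)

/-- `conj P = ∑_k bc k e^{i t log k}` -/
lemma conjP (K t : ℝ) : (starRingEnd ℂ) (EM.P K t) = ∑' k : ℕ, (bc K k : ℂ) *
    Complex.exp (Complex.I * ((t * Real.log k : ℝ) : ℂ)) := by
  have h1 : EM.P K t = ∑' k : ℕ, (bc K k : ℂ) *
      Complex.exp (Complex.I * ((-(t * Real.log k) : ℝ) : ℂ)) := by
    unfold EM.P
    exact tsum_congr fun k => term_eq K t k
  rw [h1, Complex.conj_tsum]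
  refine tsum_congr fun k => ?_
  rw [map_mul, Complex.conj_ofReal, ← Complex.exp_conj, map_mul, Complex.conj_I,
    Complex.conj_ofReal]
  congr 2
  push_cast
  ring

/-- the integrand for `k` -/
def gq (w : ℝ → ℝ) (g : ℝ → ℂ) (K T x : ℝ) (k : ℕ) (u : ℝ) : ℂ :=
  (bc K k : ℂ) * ((w u : ℂ) * (g u *
    Complex.exp (Complex.I * ((T * u * (x + Real.log k) : ℝ) : ℂ))))

lemma gq_norm (w : ℝ → ℝ) (hw : ∀ u, 0 ≤ w u) (g : ℝ → ℂ) (K T x : ℝ) (k : ℕ)
    (u : ℝ) : ‖gq w g K T x k u‖ = bc K k * (w u * ‖g u‖) := by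
  unfold gq
  rw [norm_mul, norm_mul, norm_mul, exp_norm, mul_one,
    Complex.norm_real, Complex.norm_real, Real.norm_of_nonneg (bc_nonneg _ _),
    Real.norm_of_nonneg (hw u)]

lemma cs_mul {w : ℝ → ℝ} (hw : IsW w) {f : ℝ → ℂ} (hf : Continuous f) :
    Integrable (fun u : ℝ => (w u : ℂ) * f u) := by
  refine Continuous.integrable_of_hasCompactSupport ?_ ?_
  · have := w_cont hw
    fun_prop
  · refine (w_comp hw).mono ?_
    intro u hu
    rw [Function.mem_support] at hu ⊢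
    intro h
    apply hu
    simp [h]

lemma gq_int {w : ℝ → ℝ} (hw : IsW w) {g : ℝ → ℂ} (hg : Continuous g) (K T x : ℝ) (k : ℕ) :
    Integrable (gq w g K T x k) := by
  unfold gq
  apply Integrable.const_mul
  apply cs_mul hw
  fun_prop

lemma gq_tsum (w : ℝ → ℝ) (g : ℝ → ℂ) (K T x u : ℝ) :
    ∑' k : ℕ, gq w g K T x k u =
      (w u : ℂ) * (g u * ((starRingEnd ℂ) (EM.P K (T * u)) *
        Complex.exp (Complex.I * ((T * u * x : ℝ) : ℂ)))) := by
  rw [conjP, ← tsum_mul_right, ← tsum_mul_left, ← tsum_mul_left]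
  refine tsum_congr fun k => ?_
  have e4 : Complex.exp (Complex.I * ((T * u * (x + Real.log k) : ℝ) : ℂ)) =
      Complex.exp (Complex.I * ((T * u * Real.log k : ℝ) : ℂ)) *
        Complex.exp (Complex.I * ((T * u * x : ℝ) : ℂ)) := by
    rw [← Complex.exp_add]
    congr 1
    push_cast
    ring
  unfold gq
  rw [e4]
  ring

/-- one factor `conj P` -/
lemma one_bd (hP : StPc) {w : ℝ → ℝ} (hw : IsW w) {g : ℝ → ℂ} (hg : Continuous g)
    {K : ℝ} (hK : 1 ≤ K) (T x M : ℝ)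
    (hM : ∀ k : ℕ, 1 ≤ k → ‖∫ u : ℝ, (w u : ℂ) * (g u *
      Complex.exp (Complex.I * ((T * u * (x + Real.log k) : ℝ) : ℂ)))‖ ≤ M) :
    ‖∫ u : ℝ, (w u : ℂ) * (g u * ((starRingEnd ℂ) (EM.P K (T * u)) *
      Complex.exp (Complex.I * ((T * u * x : ℝ) : ℂ))))‖ ≤ 2 * Real.sqrt K * M := by
  have hM0 : 0 ≤ M := (norm_nonneg _).trans (hM 1 le_rfl)
  obtain ⟨-, -, -, hbs, hbl⟩ := hP K hK
  have hbs' : Summable (bc K) := hbs
  have hbl' : ∑' k, bc K k ≤ 2 * Real.sqrt K := hbl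
  have hsum : Summable fun k : ℕ => ∫ u, ‖gq w g K T x k u‖ := by
    have h1 : ∀ k : ℕ, ∫ u, ‖gq w g K T x k u‖ = bc K k * ∫ u, w u * ‖g u‖ := by
      intro k
      rw [← integral_const_mul]
      exact integral_congr_ae (Filter.Eventually.of_forall fun u =>
        gq_norm w hw.nonneg g K T x k u)
    simp only [h1]
    exact hbs'.mul_right _
  have hS := hasSum_integral_of_summable_integral_norm (fun k => gq_int hw hg K T x k) hsum
  have e2 : (∫ u, ∑' k, gq w g K T x k u) = ∫ u : ℝ, (w u : ℂ) * (g u *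
      ((starRingEnd ℂ) (EM.P K (T * u)) * Complex.exp (Complex.I * ((T * u * x : ℝ) : ℂ)))) :=
    integral_congr_ae (Filter.Eventually.of_forall fun u => gq_tsum w g K T x u)
  rw [← e2, ← hS.tsum_eq]
  have h3 : ∀ k : ℕ, ‖∫ u, gq w g K T x k u‖ ≤ bc K k * M := by
    intro k
    have h4 : ∫ u, gq w g K T x k u = (bc K k : ℂ) * ∫ u : ℝ, (w u : ℂ) * (g u *
        Complex.exp (Complex.I * ((T * u * (x + Real.log k) : ℝ) : ℂ))) := by
      unfold gq
      rw [integral_const_mul]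
    rw [h4, norm_mul, Complex.norm_real, Real.norm_of_nonneg (bc_nonneg _ _)]
    rcases Nat.eq_zero_or_pos k with hk | hk
    · subst hk
      rw [bc_zero]
      simp
    · exact mul_le_mul_of_nonneg_left (hM k hk) (bc_nonneg _ _)
  have h5 : ‖∑' k, ∫ u, gq w g K T x k u‖ ≤ ∑' k, bc K k * M :=
    tsum_of_norm_bounded (hbs'.mul_right M).hasSum h3
  rw [tsum_mul_right] at h5
  exact h5.trans (mul_le_mul_of_nonneg_right hbl' hM0)

/-- the two characters -/
lemma chi_pair {h l : ℕ} (hh : h ≠ 0) (hl : l ≠ 0) (t : ℝ) :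
    chi t h * chi (-t) l = ((1 / Real.sqrt h * (1 / Real.sqrt l) : ℝ) : ℂ) *
      Complex.exp (Complex.I * ((t * (Real.log l - Real.log h) : ℝ) : ℂ)) := by
  have e1 : chi t h = (h : ℂ) ^ (-(1 / 2 + t * Complex.I)) := rfl
  have e2 : chi (-t) l = (l : ℂ) ^ (-(1 / 2 + ((-t : ℝ) : ℂ) * Complex.I)) := rfl
  rw [e1, e2, WM.I_FMx.cpow_eq (Nat.pos_of_ne_zero hh), WM.I_FMx.cpow_eq (Nat.pos_of_ne_zero hl)]
  have e4 : Complex.exp (Complex.I * ((t * (Real.log l - Real.log h) : ℝ) : ℂ)) =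
      Complex.exp (Complex.I * ((-(t * Real.log h) : ℝ) : ℂ)) *
        Complex.exp (Complex.I * ((-(-t * Real.log l) : ℝ) : ℂ)) := by
    rw [← Complex.exp_add]
    congr 1
    push_cast
    ring
  rw [e4]
  push_cast
  ring

lemma r_le {h l : ℕ} (hh : h ≠ 0) (hl : l ≠ 0) :
    0 ≤ 1 / Real.sqrt h * (1 / Real.sqrt l) ∧ 1 / Real.sqrt h * (1 / Real.sqrt l) ≤ 1 := by
  have h1 : ∀ n : ℕ, n ≠ 0 → 0 ≤ 1 / Real.sqrt n ∧ 1 / Real.sqrt n ≤ 1 := by
    intro n hn
    have h2 : (1 : ℝ) ≤ n := by exact_mod_cast Nat.pos_of_ne_zero hn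
    have h3 : 1 ≤ Real.sqrt n := by
      rw [Real.one_le_sqrt]
      exact h2
    exact ⟨by positivity, (div_le_one (by linarith)).2 h3⟩
  obtain ⟨a1, a2⟩ := h1 h hh
  obtain ⟨b1, b2⟩ := h1 l hl
  exact ⟨mul_nonneg a1 b1, mul_le_one₀ a2 b1 b2⟩

/-- the main part -/
lemma mainp (hP : StPc) {w : ℝ → ℝ} (hw : IsW w) (hUc : Continuous U) (a : ℕ) {K : ℝ}
    (hK : 1 ≤ K) (T M : ℝ) {h l : ℕ} (hh : h ≠ 0) (hl : l ≠ 0)
    (hM : ∀ lam : ℝ, -Real.log h ≤ lam → ‖∫ u : ℝ, (w u : ℂ) * (U (T * u) ^ a *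
      Complex.exp (Complex.I * ((T * u * lam : ℝ) : ℂ)))‖ ≤ M) :
    ‖∫ u : ℝ, (w u : ℂ) * (U (T * u) ^ a * ((starRingEnd ℂ) (EM.P K (T * u)) ^ 2 *
      (chi (T * u) h * chi (-(T * u)) l)))‖ ≤ 4 * K * M := by
  have hPc : Continuous fun u : ℝ => (starRingEnd ℂ) (EM.P K (T * u)) :=
    Complex.continuous_conj.comp ((hP K hK).1.comp (continuous_const.mul continuous_id))
  have hUj : Continuous fun u : ℝ => U (T * u) ^ a :=
    (hUc.comp (continuous_const.mul continuous_id)).pow a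
  obtain ⟨r0, r1⟩ := r_le hh hl
  have hl1 : 0 ≤ Real.log l := Real.log_nonneg (by exact_mod_cast Nat.pos_of_ne_zero hl)
  have e0 : (∫ u : ℝ, (w u : ℂ) * (U (T * u) ^ a * ((starRingEnd ℂ) (EM.P K (T * u)) ^ 2 *
      (chi (T * u) h * chi (-(T * u)) l)))) =
      ((1 / Real.sqrt h * (1 / Real.sqrt l) : ℝ) : ℂ) * ∫ u : ℝ, (w u : ℂ) *
        ((U (T * u) ^ a * (starRingEnd ℂ) (EM.P K (T * u))) * ((starRingEnd ℂ) (EM.P K (T * u)) *
        Complex.exp (Complex.I * ((T * u * (Real.log l - Real.log h) : ℝ) : ℂ)))) := by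
    rw [← integral_const_mul]
    congr 1
    funext u
    rw [chi_pair hh hl]
    ring
  have h2 := one_bd hP hw (hUj.mul hPc) hK T (Real.log l - Real.log h) (2 * Real.sqrt K * M) (by
    intro k hk
    have hk1 : 0 ≤ Real.log k := Real.log_nonneg (by exact_mod_cast hk)
    have h3 := one_bd hP hw hUj hK T (Real.log l - Real.log h + Real.log k) M (by
      intro k' hk'
      have hk2 : 0 ≤ Real.log k' := Real.log_nonneg (by exact_mod_cast hk')
      exact hM _ (by linarith))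
    refine le_trans (le_of_eq ?_) h3
    congr 2
    funext u
    simp only [Pi.mul_apply]
    ring)
  rw [e0, norm_mul, Complex.norm_real, Real.norm_of_nonneg r0]
  have h5 : 2 * Real.sqrt K * (2 * Real.sqrt K * M) = 4 * K * M := by
    have := Real.mul_self_sqrt (show 0 ≤ K by linarith)
    linear_combination 4 * M * this
  rw [h5] at h2
  calc 1 / Real.sqrt h * (1 / Real.sqrt l) * _ ≤ 1 * (4 * K * M) :=
        mul_le_mul r1 h2 (norm_nonneg _) zero_le_one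
    _ = 4 * K * M := one_mul _

/-- the second moment of zeta -/
lemma sec (h4 : WM.S_TSb) {w : ℝ → ℝ} (hw : IsW w) : ∃ C T₀ : ℝ, 0 ≤ C ∧ ∀ T : ℝ, T₀ ≤ T →
    1 ≤ T → ∫ u : ℝ, w u * az (T * u) ^ 2 ≤ C * Real.log T := by
  obtain ⟨C, T₀, hC, hh⟩ := h4 w hw
  refine ⟨C, T₀, hC, fun T hT hT1 => ?_⟩
  have h1 := hh T hT 1 (by simpa using hT1) (fun n => if n = 1 then 1 else 0) (by simp)
    (fun n => by split_ifs <;> norm_num)
  have h2 : ∀ t : ℝ, DP (fun n => if n = 1 then 1 else 0) 1 t = 1 := by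
    intro t
    unfold DP
    simp [Finset.sum_range_succ]
  have h3 : GS (fun n => if n = 1 then 1 else 0) 1 = 1 := by
    unfold GS
    simp [Finset.sum_range_succ]
  rw [h3, mul_one] at h1
  refine le_trans (le_of_eq ?_) h1
  congr 1
  funext u
  rw [h2]
  simp

end I_PrU2

open I_PrU2 in
/-- **Y2 (PrU2).** -/
theorem PrU2_pf (hP : StPc) (h0 : WA.S_ZPK) (h4 : WM.S_TSb) (h2 : WA.S_UZ) (h3 : WA.S_Osc3)
    (h5 : SH.S_Cha) : S_PrU2 := by
  intro w hw a ha
  obtain ⟨hUc, hzc, hU, -⟩ := h2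
  obtain ⟨C1, T1, hC1, hT1, hz⟩ := h0 w hw
  obtain ⟨C2, T2, hC2, hm⟩ := sec h4 hw
  obtain ⟨C3, T3, hC3, hT3, ho⟩ := h3 w hw a ha
  have hW0 : 0 ≤ ∫ u, w u := integral_nonneg hw.nonneg
  refine ⟨C1 * ((1 + C1) * (∫ u, w u) + 60 * C2) + 4 * C3, max T1 (max T2 T3), by positivity,
    hT1.trans (le_max_left _ _), ?_⟩
  intro T hT h l hh hl hh8 hl8
  have hTT1 : T1 ≤ T := (le_max_left _ _).trans hT
  have hTT2 : T2 ≤ T := ((le_max_left _ _).trans (le_max_right _ _)).trans hT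
  have hTT3 : T3 ≤ T := ((le_max_right _ _).trans (le_max_right _ _)).trans hT
  have hT1' : 1 ≤ T := hT1.trans hTT1
  have hTpos : 0 < T := by linarith
  have hlT : 0 ≤ Real.log T := Real.log_nonneg hT1'
  obtain ⟨K, hKd⟩ : ∃ K : ℝ, K = T ^ (11 / 5 : ℝ) := ⟨_, rfl⟩
  have hK : 1 ≤ K := by
    rw [hKd]
    exact Real.one_le_rpow hT1' (by norm_num)
  have hlh : Real.log h ≤ 1 / 8 * Real.log T := by
    have h6 := Real.log_le_log (by
      have : (0 : ℝ) < h := by exact_mod_cast Nat.pos_of_ne_zero hh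
      positivity) hh8
    rw [Real.log_pow] at h6
    push_cast at h6
    linarith
  have hmain := mainp hP hw hUc a hK T (C3 / T ^ 3) hh hl
    (fun lam hlam => ho T hTT3 lam (by linarith))
  -- continuity
  have hlin : Continuous fun u : ℝ => T * u := continuous_const.mul continuous_id
  have hZ : Continuous fun u : ℝ => (starRingEnd ℂ) (zt (T * u)) :=
    Complex.continuous_conj.comp (hzc.comp hlin)
  have hPc : Continuous fun u : ℝ => (starRingEnd ℂ) (EM.P K (T * u)) :=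
    Complex.continuous_conj.comp ((hP K hK).1.comp hlin)
  have hUj : Continuous fun u : ℝ => U (T * u) ^ a := (hUc.comp hlin).pow a
  have hch : Continuous fun u : ℝ => chi (T * u) h * chi (-(T * u)) l :=
    ((h5.2.2.2.2.2.2.1 h).comp hlin).mul ((h5.2.2.2.2.2.2.1 l).comp hlin.neg)
  have iZ : Integrable (fun u : ℝ => (w u : ℂ) * (U (T * u) ^ a *
      ((starRingEnd ℂ) (zt (T * u)) ^ 2 * (chi (T * u) h * chi (-(T * u)) l)))) :=
    cs_mul hw (hUj.mul ((hZ.pow 2).mul hch))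
  have iP : Integrable (fun u : ℝ => (w u : ℂ) * (U (T * u) ^ a *
      ((starRingEnd ℂ) (EM.P K (T * u)) ^ 2 * (chi (T * u) h * chi (-(T * u)) l)))) :=
    cs_mul hw (hUj.mul ((hPc.pow 2).mul hch))
  obtain ⟨e, he⟩ : ∃ e : ℝ, e = C1 / T ^ (1 / 10 : ℝ) := ⟨_, rfl⟩
  have h10 : 1 ≤ T ^ (1 / 10 : ℝ) := Real.one_le_rpow hT1' (by norm_num)
  have he0 : 0 ≤ e := by
    rw [he]
    positivity
  have he1 : e ≤ C1 := by
    rw [he]
    exact div_le_self hC1 h10
  have hazc : Continuous fun u : ℝ => ‖zt (T * u)‖ := (hzc.comp hlin).norm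
  have s1 : ‖(∫ u : ℝ, (w u : ℂ) * (U (T * u) ^ a *
      ((starRingEnd ℂ) (zt (T * u)) ^ 2 * (chi (T * u) h * chi (-(T * u)) l)))) -
      ∫ u : ℝ, (w u : ℂ) * (U (T * u) ^ a *
      ((starRingEnd ℂ) (EM.P K (T * u)) ^ 2 * (chi (T * u) h * chi (-(T * u)) l)))‖ ≤
      e * ((1 + C1) * (∫ u, w u) + C2 * Real.log T) := by
    have hb2 : e * ((1 + C1) * (∫ u, w u) + ∫ u : ℝ, w u * az (T * u) ^ 2) ≤
        e * ((1 + C1) * (∫ u, w u) + C2 * Real.log T) :=
      mul_le_mul_of_nonneg_left (add_le_add le_rfl (hm T hTT2 hT1')) he0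
    refine le_trans ?_ hb2
    have hi1 : Integrable fun u : ℝ => w u :=
      hw.smooth.continuous.integrable_of_hasCompactSupport (WM.I_FMx.w_comp hw)
    have hi2 : Integrable fun u : ℝ => w u * az (T * u) ^ 2 := WM.I_FMb.intw hw (hazc.pow 2)
    rw [← integral_sub iZ iP, ← integral_const_mul, ← integral_add (hi1.const_mul _) hi2,
      ← integral_const_mul]
    refine (norm_integral_le_integral_norm _).trans ?_
    apply integral_mono (iZ.sub iP).norm (((hi1.const_mul _).add hi2).const_mul _)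
    intro u
    simp only [Pi.sub_apply]
    show _ ≤ e * ((1 + C1) * w u + w u * az (T * u) ^ 2)
    have e1 : (w u : ℂ) * (U (T * u) ^ a * ((starRingEnd ℂ) (zt (T * u)) ^ 2 *
        (chi (T * u) h * chi (-(T * u)) l))) -
        (w u : ℂ) * (U (T * u) ^ a * ((starRingEnd ℂ) (EM.P K (T * u)) ^ 2 *
        (chi (T * u) h * chi (-(T * u)) l))) =
        (w u : ℂ) * (U (T * u) ^ a * ((starRingEnd ℂ) (zt (T * u) - EM.P K (T * u)) *
        (starRingEnd ℂ) (zt (T * u) + EM.P K (T * u)) *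
        (chi (T * u) h * chi (-(T * u)) l))) := by
      rw [map_sub, map_add]
      ring
    rw [e1, norm_mul, norm_mul, norm_mul, norm_mul, norm_mul, norm_pow, hU, one_pow, one_mul,
      RCLike.norm_conj, RCLike.norm_conj, Complex.norm_real, Real.norm_of_nonneg (hw.nonneg u)]
    by_cases hwu : w u = 0
    · rw [hwu]
      simp
    · have h6 : ‖zt (T * u) - EM.P K (T * u)‖ ≤ e := by
        rw [hKd, he]
        exact hz T hTT1 u hwu
      have h7 : ‖zt (T * u) + EM.P K (T * u)‖ ≤ 1 + C1 + az (T * u) ^ 2 := by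
        have h8 : zt (T * u) + EM.P K (T * u) =
            (zt (T * u) + zt (T * u)) - (zt (T * u) - EM.P K (T * u)) := by ring
        rw [h8]
        refine (norm_sub_le _ _).trans ?_
        have h9 : ‖zt (T * u) + zt (T * u)‖ ≤ 2 * ‖zt (T * u)‖ := by
          refine (norm_add_le _ _).trans ?_
          linarith
        have h11 : az (T * u) = ‖zt (T * u)‖ := rfl
        rw [h11]
        nlinarith [sq_nonneg (‖zt (T * u)‖ - 1)]
      have h12 : ‖chi (T * u) h‖ * ‖chi (-(T * u)) l‖ ≤ 1 :=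
        mul_le_one₀ (h5.2.2.2.2.2.1 _ _) (norm_nonneg _) (h5.2.2.2.2.2.1 _ _)
      have h13 : ‖zt (T * u) - EM.P K (T * u)‖ * ‖zt (T * u) + EM.P K (T * u)‖ ≤
          e * (1 + C1 + az (T * u) ^ 2) := mul_le_mul h6 h7 (norm_nonneg _) he0
      have h14 := mul_le_mul h13 h12 (by positivity) (by positivity)
      have h15 := mul_le_mul_of_nonneg_left h14 (hw.nonneg u)
      refine h15.trans (le_of_eq ?_)
      ring
  -- powers of T
  have hlog : Real.log T ≤ 60 * T ^ (1 / 60 : ℝ) := by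
    have h6 := Real.log_le_rpow_div hTpos.le (show (0 : ℝ) < 1 / 60 by norm_num)
    refine h6.trans (le_of_eq ?_)
    ring
  have h60 : 1 ≤ T ^ (1 / 60 : ℝ) := Real.one_le_rpow hT1' (by norm_num)
  have hp12 : 0 < T ^ (1 / 12 : ℝ) := Real.rpow_pos_of_pos hTpos _
  have hpow : T ^ (1 / 10 : ℝ) = T ^ (1 / 12 : ℝ) * T ^ (1 / 60 : ℝ) := by
    rw [← Real.rpow_add hTpos]
    norm_num
  have s2 : e * ((1 + C1) * (∫ u, w u) + C2 * Real.log T) ≤
      C1 * ((1 + C1) * (∫ u, w u) + 60 * C2) / T ^ (1 / 12 : ℝ) := by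
    have h6 : (1 + C1) * (∫ u, w u) + C2 * Real.log T ≤
        ((1 + C1) * (∫ u, w u) + 60 * C2) * T ^ (1 / 60 : ℝ) := by
      have h7 : (1 + C1) * (∫ u, w u) ≤ (1 + C1) * (∫ u, w u) * T ^ (1 / 60 : ℝ) :=
        le_mul_of_one_le_right (by positivity) h60
      have h8 := mul_le_mul_of_nonneg_left hlog hC2
      linarith
    refine (mul_le_mul_of_nonneg_left h6 he0).trans (le_of_eq ?_)
    rw [he, hpow]
    have h60' : T ^ (1 / 60 : ℝ) ≠ 0 := by positivity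
    field_simp
  have s3 : 4 * K * (C3 / T ^ 3) ≤ 4 * C3 / T ^ (1 / 12 : ℝ) := by
    have h6 : K * T ^ (1 / 12 : ℝ) ≤ T ^ 3 := by
      rw [hKd, ← Real.rpow_add hTpos, ← Real.rpow_natCast]
      exact Real.rpow_le_rpow_of_exponent_le hT1' (by norm_num)
    rw [mul_div_assoc', div_le_div_iff₀ (by positivity) hp12]
    have h7 := mul_le_mul_of_nonneg_left h6 (show 0 ≤ 4 * C3 by positivity)
    linarith
  have s4 := norm_sub_norm_le (∫ u : ℝ, (w u : ℂ) * (U (T * u) ^ a *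
      ((starRingEnd ℂ) (zt (T * u)) ^ 2 * (chi (T * u) h * chi (-(T * u)) l))))
      (∫ u : ℝ, (w u : ℂ) * (U (T * u) ^ a *
      ((starRingEnd ℂ) (EM.P K (T * u)) ^ 2 * (chi (T * u) h * chi (-(T * u)) l))))
  have s5 : (C1 * ((1 + C1) * (∫ u, w u) + 60 * C2) + 4 * C3) / T ^ (1 / 12 : ℝ) =
      C1 * ((1 + C1) * (∫ u, w u) + 60 * C2) / T ^ (1 / 12 : ℝ) +
        4 * C3 / T ^ (1 / 12 : ℝ) := by ring
  rw [s5]
  linarith

end Pool.Agent.Work.MP_56b8f5_nt.SX
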