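import Pool.Agent.Work.MP_56b8f5_nt.SX.Stmts

/-!
MP_56b8f5_nt, block SX, item Y7 (TPc): coefficients of nonnegative trigonometric polynomials.
-/

set_option autoImplicit false

open MeasureTheory Set Filter Topology

noncomputable section

namespace Pool.Agent.Work.MP_56b8f5_nt.SX

open Pool.Agent.Work.MP_56b8f5_nt.EM Pool.Agent.Work.MP_56b8f5_nt.WM
open Pool.Agent.Work.MP_56b8f5_nt.WA Pool.Agent.Work.MP_56b8f5_nt.SH

namespace I_TPc

theorem sum_pow {N : ℕ} {ζ : ℂ} (hζ : IsPrimitiveRoot ζ N) {a : ℕ} (ha0 : 0 < a) (haN : a < N) :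
    ∑ j ∈ Finset.range N, (ζ ^ j) ^ a = 0 := by
  have h1 : ζ ^ a ≠ 1 := hζ.pow_ne_one_of_pos_of_lt ha0.ne' haN
  have h2 : ∑ j ∈ Finset.range N, (ζ ^ j) ^ a = ∑ j ∈ Finset.range N, (ζ ^ a) ^ j :=
    Finset.sum_congr rfl fun j _ => by rw [← pow_mul, ← pow_mul, mul_comm]
  rw [h2, geom_sum_eq h1, ← pow_mul, mul_comm, pow_mul, hζ.pow_eq_one, one_pow, sub_self, zero_div]

theorem sum_conj {N : ℕ} {ζ : ℂ} (hζ : IsPrimitiveRoot ζ N) {a : ℕ} (ha0 : 0 < a) (haN : a < N) :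
    ∑ j ∈ Finset.range N, ((starRingEnd ℂ) (ζ ^ j)) ^ a = 0 := by
  have h := congrArg (starRingEnd ℂ) (sum_pow hζ ha0 haN)
  rw [map_sum, map_zero] at h
  rw [← h]
  exact Finset.sum_congr rfl fun j _ => (map_pow (starRingEnd ℂ) (ζ ^ j) a).symm

theorem sum_mix {N : ℕ} {ζ : ℂ} (hζ : IsPrimitiveRoot ζ N) (hn : ‖ζ‖ = 1) {k m : ℕ} (hk : k < N)
    (hm : m < N) :
    ∑ j ∈ Finset.range N, (ζ ^ j) ^ k * ((starRingEnd ℂ) (ζ ^ j)) ^ m =
      if k = m then (N : ℂ) else 0 := by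
  have hz : ∀ j : ℕ, ζ ^ j * (starRingEnd ℂ) (ζ ^ j) = 1 := by
    intro j
    rw [Complex.mul_conj, Complex.normSq_eq_norm_sq, norm_pow, hn]
    simp
  rcases lt_trichotomy k m with h | h | h
  · rw [if_neg h.ne]
    obtain ⟨a, ha⟩ : ∃ a, m = k + a := ⟨m - k, by omega⟩
    have : ∀ j ∈ Finset.range N, (ζ ^ j) ^ k * ((starRingEnd ℂ) (ζ ^ j)) ^ m =
        ((starRingEnd ℂ) (ζ ^ j)) ^ a := by
      intro j _
      rw [ha, pow_add, ← mul_assoc, ← mul_pow, hz, one_pow, one_mul]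
    rw [Finset.sum_congr rfl this]
    exact sum_conj hζ (by omega) (by omega)
  · rw [if_pos h, h]
    have : ∀ j ∈ Finset.range N, (ζ ^ j) ^ m * ((starRingEnd ℂ) (ζ ^ j)) ^ m = 1 := by
      intro j _
      rw [← mul_pow, hz, one_pow]
    rw [Finset.sum_congr rfl this]
    simp
  · rw [if_neg h.ne']
    obtain ⟨a, ha⟩ : ∃ a, k = m + a := ⟨k - m, by omega⟩
    have : ∀ j ∈ Finset.range N, (ζ ^ j) ^ k * ((starRingEnd ℂ) (ζ ^ j)) ^ m = (ζ ^ j) ^ a := by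
      intro j _
      rw [ha, pow_add, mul_right_comm, ← mul_pow, hz, one_pow, one_mul]
    rw [Finset.sum_congr rfl this]
    exact sum_pow hζ (by omega) (by omega)

theorem TP_coe (n : ℕ) (p0 : ℝ) (p : ℕ → ℂ) (z : ℂ) : ((TP n p0 p z : ℝ) : ℂ) =
    p0 + ∑ k ∈ Finset.Icc 1 n, (p k * z ^ k + (starRingEnd ℂ) (p k) * ((starRingEnd ℂ) z) ^ k) := by
  rw [TP]
  push_cast
  congr 1
  have h := Complex.add_conj (∑ k ∈ Finset.Icc 1 n, p k * z ^ k)
  push_cast at h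
  rw [← h, map_sum, ← Finset.sum_add_distrib]
  exact Finset.sum_congr rfl fun k _ => by rw [map_mul, map_pow]

end I_TPc

open I_TPc in
theorem TPc_pf : S_TPc := by
  intro n p0 τ p hpos m hm1 hmn
  set N : ℕ := 2 * n + 1 with hN
  have hN0 : N ≠ 0 := by omega
  have hNpos : (0 : ℝ) < N := by exact_mod_cast Nat.pos_of_ne_zero hN0
  set ζ : ℂ := Complex.exp (2 * Real.pi * Complex.I / N) with hζd
  have hζ : IsPrimitiveRoot ζ N := Complex.isPrimitiveRoot_exp N hN0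
  have hn : ‖ζ‖ = 1 := hζ.norm'_eq_one hN0
  have hnj : ∀ j : ℕ, ‖ζ ^ j‖ = 1 := fun j => by rw [norm_pow, hn, one_pow]
  have hcj : ∀ j : ℕ, ‖(starRingEnd ℂ) (ζ ^ j)‖ = 1 := fun j => by rw [RCLike.norm_conj, hnj]
  -- the coefficient
  have h1 : ∑ j ∈ Finset.range N, (((TP n p0 p (ζ ^ j) + τ : ℝ) : ℂ)) *
      ((starRingEnd ℂ) (ζ ^ j)) ^ m = N * p m := by
    have e : ∀ j ∈ Finset.range N, (((TP n p0 p (ζ ^ j) + τ : ℝ) : ℂ)) *
        ((starRingEnd ℂ) (ζ ^ j)) ^ m = ((p0 : ℂ) + τ) * ((starRingEnd ℂ) (ζ ^ j)) ^ m +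
        ∑ k ∈ Finset.Icc 1 n, (p k * ((ζ ^ j) ^ k * ((starRingEnd ℂ) (ζ ^ j)) ^ m) +
          (starRingEnd ℂ) (p k) * ((starRingEnd ℂ) (ζ ^ j)) ^ (k + m)) := by
      intro j _
      push_cast
      rw [TP_coe, add_right_comm, add_mul, Finset.sum_mul]
      congr 1
      refine Finset.sum_congr rfl fun k _ => ?_
      rw [pow_add]
      ring
    rw [Finset.sum_congr rfl e, Finset.sum_add_distrib, ← Finset.mul_sum,
      sum_conj hζ (by omega) (by omega), mul_zero, zero_add, Finset.sum_comm]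
    have e2 : ∀ k ∈ Finset.Icc 1 n, ∑ j ∈ Finset.range N,
        (p k * ((ζ ^ j) ^ k * ((starRingEnd ℂ) (ζ ^ j)) ^ m) +
          (starRingEnd ℂ) (p k) * ((starRingEnd ℂ) (ζ ^ j)) ^ (k + m)) =
        if k = m then (N : ℂ) * p m else 0 := by
      intro k hk
      obtain ⟨hk1, hk2⟩ := Finset.mem_Icc.mp hk
      rw [Finset.sum_add_distrib, ← Finset.mul_sum, ← Finset.mul_sum,
        sum_mix hζ hn (by omega) (by omega), sum_conj hζ (by omega) (by omega), mul_zero, add_zero]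
      by_cases hkm : k = m
      · rw [if_pos hkm, if_pos hkm, hkm, mul_comm]
      · rw [if_neg hkm, if_neg hkm, mul_zero]
    rw [Finset.sum_congr rfl e2, Finset.sum_ite_eq', if_pos (Finset.mem_Icc.mpr ⟨hm1, hmn⟩)]
  -- the mean value
  have h2 : ∑ j ∈ Finset.range N, (TP n p0 p (ζ ^ j) + τ) = N * (p0 + τ) := by
    have e : ∑ j ∈ Finset.range N, (TP n p0 p (ζ ^ j) + τ) = N * (p0 + τ) +
        2 * (∑ k ∈ Finset.Icc 1 n, p k * ∑ j ∈ Finset.range N, (ζ ^ j) ^ k).re := by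
      have e1 : ∑ k ∈ Finset.Icc 1 n, p k * ∑ j ∈ Finset.range N, (ζ ^ j) ^ k =
          ∑ j ∈ Finset.range N, ∑ k ∈ Finset.Icc 1 n, p k * (ζ ^ j) ^ k := by
        rw [Finset.sum_comm]
        exact Finset.sum_congr rfl fun k _ => by rw [Finset.mul_sum]
      rw [e1, Complex.re_sum, Finset.mul_sum]
      have e3 : ∀ j ∈ Finset.range N, TP n p0 p (ζ ^ j) + τ = (p0 + τ) +
          2 * (∑ k ∈ Finset.Icc 1 n, p k * (ζ ^ j) ^ k).re := by
        intro j _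
        rw [TP]
        ring
      rw [Finset.sum_congr rfl e3, Finset.sum_add_distrib, Finset.sum_const, Finset.card_range,
        nsmul_eq_mul]
    have e4 : ∑ k ∈ Finset.Icc 1 n, p k * ∑ j ∈ Finset.range N, (ζ ^ j) ^ k = 0 := by
      refine Finset.sum_eq_zero fun k hk => ?_
      obtain ⟨hk1, hk2⟩ := Finset.mem_Icc.mp hk
      rw [sum_pow hζ (by omega) (by omega), mul_zero]
    rw [e, e4, Complex.zero_re, mul_zero, add_zero]
  -- conclusion
  have h3 : ‖(N : ℂ) * p m‖ ≤ N * (p0 + τ) := by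
    rw [← h1, ← h2]
    refine (norm_sum_le _ _).trans (Finset.sum_le_sum fun j _ => ?_)
    rw [norm_mul, norm_pow, hcj, one_pow, mul_one, Complex.norm_real, Real.norm_eq_abs,
      abs_of_nonneg (hpos _ (hnj j))]
  rw [norm_mul, Complex.norm_natCast] at h3
  exact le_of_mul_le_mul_left h3 hNpos

end Pool.Agent.Work.MP_56b8f5_nt.SX
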