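import Pool.Agent.Work.MP_56b8f5_nt.SX.Stmts
import Pool.Agent.Work.MP_56b8f5_nt.WA.I_TrigL

/-!
MP_56b8f5_nt, block SX, item TrigL2 (Y5): the lower bound in sectors with the explicit constant.
-/

set_option autoImplicit false

open MeasureTheory Set Filter Topology

noncomputable section

namespace Pool.Agent.Work.MP_56b8f5_nt.SX

open Pool.Agent.Work.MP_56b8f5_nt.EM Pool.Agent.Work.MP_56b8f5_nt.WM
open Pool.Agent.Work.MP_56b8f5_nt.WA

open WA.I_TrigL in
theorem TrigL2_pf (h1 : WA.S_KerL) : S_TrigL2 := by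
  intro c₀ C₀ hc hC θ hθ hθπ
  have hpi := Real.pi_pos
  set τ : ℝ := c₀ * θ / (16 * Real.pi * C₀) with hτ
  have hτ0 : 0 < τ := by rw [hτ]; positivity
  obtain ⟨n, p0, p, hp0, hK⟩ := h1 θ τ hθ hθπ hτ0
  set SP : ℝ := ∑ m ∈ Finset.Icc 1 n, ‖p m‖ with hSP
  have hSP0 : 0 ≤ SP := Finset.sum_nonneg fun m _ => norm_nonneg _
  set ε : ℝ := c₀ * θ / (8 * Real.pi * (1 + 2 * SP)) with hε
  have hε0 : 0 < ε := by rw [hε]; positivity
  refine ⟨n, ε, hε0, ?_⟩
  intro w hwc hws hw0 X f V A B Q hX hf hV hA hB hQ hV1 hfV hAB H ω hω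
  have hcB : Continuous fun u => (starRingEnd ℂ) (B u) := Complex.continuous_conj.comp hB
  have hcQ : Continuous fun u => (starRingEnd ℂ) (Q u) := Complex.continuous_conj.comp hQ
  have hab : Continuous fun u => A u * (starRingEnd ℂ) (B u) := hA.mul hcB
  have hqq : Continuous fun u => Q u * (starRingEnd ℂ) (Q u) := hQ.mul hcQ
  have hwC : Continuous fun u => (w u : ℂ) := Complex.continuous_ofReal.comp hwc
  have hwCs : HasCompactSupport fun u => (w u : ℂ) := hws.comp_left Complex.ofReal_zero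
  -- integrability
  set T : ℕ → ℕ → ℝ → ℂ := fun i l u => (w u : ℂ) *
      WA.I_Trig.Tf ω (f u) (V u) (A u * (starRingEnd ℂ) (B u)) (Q u * (starRingEnd ℂ) (Q u)) i l with hT
  have hIT : ∀ i l, Integrable (T i l) := by
    intro i l
    exact (hwC.mul (WA.I_Trig.cont_Tf ω hf hV hab hqq i l)).integrable_of_hasCompactSupport
      hwCs.mul_right
  set F : ℝ → ℝ := fun u => ‖f u‖ * (‖A u‖ * ‖B u‖) with hF
  have hFc : Continuous F := hf.norm.mul (hA.norm.mul hB.norm)
  have hIF : Integrable fun u => w u * F u :=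
    (hwc.mul hFc).integrable_of_hasCompactSupport hws.mul_right
  have hmeas : MeasurableSet (sec θ ω f) := by
    unfold sec
    exact (isOpen_lt (continuous_const.mul hf.norm)
      (Complex.continuous_re.comp (continuous_const.mul hf))).measurableSet
  -- the combination
  set S : ℝ → ℂ := fun u => ((p0 + τ : ℝ) : ℂ) * T 0 0 u + ∑ m ∈ Finset.Icc 1 n,
    (p m * T m 0 u + (starRingEnd ℂ) (p m) * T 0 m u) with hS
  have hI2 : ∀ m, Integrable fun u => p m * T m 0 u + (starRingEnd ℂ) (p m) * T 0 m u :=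
    fun m => ((hIT m 0).const_mul _).add ((hIT 0 m).const_mul _)
  have hIsum : Integrable fun u => ∑ m ∈ Finset.Icc 1 n,
      (p m * T m 0 u + (starRingEnd ℂ) (p m) * T 0 m u) :=
    integrable_finsetSum _ fun m _ => hI2 m
  have hIS : Integrable S := ((hIT 0 0).const_mul _).add hIsum
  have hSint : ∫ u, S u = ((p0 + τ : ℝ) : ℂ) * (∫ u, T 0 0 u) + ∑ m ∈ Finset.Icc 1 n,
      (p m * (∫ u, T m 0 u) + (starRingEnd ℂ) (p m) * ∫ u, T 0 m u) := by
    rw [hS, integral_add ((hIT 0 0).const_mul _) hIsum, integral_const_mul,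
      integral_finsetSum _ fun m _ => hI2 m]
    congr 1
    refine Finset.sum_congr rfl fun m _ => ?_
    rw [integral_add ((hIT m 0).const_mul _) ((hIT 0 m).const_mul _), integral_const_mul,
      integral_const_mul]
  -- upper bound of the real part
  have hup : (∫ u, S u).re ≤ (∫ u in sec θ ω f, w u * F u) + 2 * τ * (∫ u, w u * F u) := by
    have e1 : (∫ u, S u).re = ∫ u, (S u).re := by
      have := integral_re hIS
      simpa using this.symm
    rw [e1, ← integral_indicator hmeas, ← integral_const_mul,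
      ← integral_add (hIF.indicator hmeas) (hIF.const_mul _)]
    refine integral_mono hIS.re ((hIF.indicator hmeas).add (hIF.const_mul _)) ?_
    intro u
    have hpt := pt (A := A u) (B := B u) (Q := Q u) hω (hV1 u) (hfV u) (hAB u) n p0 p θ τ hK
    have hSu : S u = (w u : ℂ) * (((p0 + τ : ℝ) : ℂ) *
        WA.I_Trig.Tf ω (f u) (V u) (A u * (starRingEnd ℂ) (B u)) (Q u * (starRingEnd ℂ) (Q u)) 0 0 +
        ∑ m ∈ Finset.Icc 1 n, (p m *
          WA.I_Trig.Tf ω (f u) (V u) (A u * (starRingEnd ℂ) (B u)) (Q u * (starRingEnd ℂ) (Q u)) m 0 +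
          (starRingEnd ℂ) (p m) *
          WA.I_Trig.Tf ω (f u) (V u) (A u * (starRingEnd ℂ) (B u)) (Q u * (starRingEnd ℂ) (Q u)) 0 m)) := by
      simp only [hS, hT]
      rw [mul_add, Finset.mul_sum]
      congr 1
      · ring
      · refine Finset.sum_congr rfl fun m _ => ?_
        ring
    show RCLike.re (S u) ≤ _
    rw [hSu]
    have h2 : RCLike.re ((w u : ℂ) * (((p0 + τ : ℝ) : ℂ) *
        WA.I_Trig.Tf ω (f u) (V u) (A u * (starRingEnd ℂ) (B u)) (Q u * (starRingEnd ℂ) (Q u)) 0 0 +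
        ∑ m ∈ Finset.Icc 1 n, (p m *
          WA.I_Trig.Tf ω (f u) (V u) (A u * (starRingEnd ℂ) (B u)) (Q u * (starRingEnd ℂ) (Q u)) m 0 +
          (starRingEnd ℂ) (p m) *
          WA.I_Trig.Tf ω (f u) (V u) (A u * (starRingEnd ℂ) (B u)) (Q u * (starRingEnd ℂ) (Q u)) 0 m))) =
        w u * (((p0 + τ : ℝ) : ℂ) *
        WA.I_Trig.Tf ω (f u) (V u) (A u * (starRingEnd ℂ) (B u)) (Q u * (starRingEnd ℂ) (Q u)) 0 0 +
        ∑ m ∈ Finset.Icc 1 n, (p m *
          WA.I_Trig.Tf ω (f u) (V u) (A u * (starRingEnd ℂ) (B u)) (Q u * (starRingEnd ℂ) (Q u)) m 0 +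
          (starRingEnd ℂ) (p m) *
          WA.I_Trig.Tf ω (f u) (V u) (A u * (starRingEnd ℂ) (B u)) (Q u * (starRingEnd ℂ) (Q u)) 0 m)).re :=
      Complex.re_ofReal_mul _ _
    rw [h2]
    refine (mul_le_mul_of_nonneg_left hpt (hw0 u)).trans (le_of_eq ?_)
    simp only [Set.indicator, sec, Set.mem_ofPred_eq, hF]
    split_ifs <;> ring
  -- lower bound of the real part
  have hlow : θ / (2 * Real.pi) * (c₀ * X) - 2 * SP * (ε * X) ≤ (∫ u, S u).re := by
    rw [hSint, Complex.add_re, Complex.re_ofReal_mul, Complex.re_sum]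
    have hm : c₀ * X ≤ (∫ u, T 0 0 u).re := by
      have := H.main
      simp only [hT]
      simp_rw [WA.I_Trig.diag]
      exact this
    have hcX : 0 ≤ c₀ * X := mul_nonneg hc.le hX
    have h3 : θ / (2 * Real.pi) * (c₀ * X) ≤ (p0 + τ) * (∫ u, T 0 0 u).re := by
      have hpp : θ / (2 * Real.pi) ≤ p0 + τ := by linarith
      have hp1 : 0 ≤ p0 + τ := le_trans (by positivity) hpp
      exact mul_le_mul hpp hm hcX hp1
    have hterm : ∀ m ∈ Finset.Icc 1 n, -(2 * ‖p m‖ * (ε * X)) ≤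
        (p m * (∫ u, T m 0 u) + (starRingEnd ℂ) (p m) * ∫ u, T 0 m u).re := by
      intro m hmm
      obtain ⟨hm1, hm2⟩ := Finset.mem_Icc.mp hmm
      have s1 : ‖∫ u, T m 0 u‖ ≤ ε * X :=
        WA.I_Trig.small hV1 hfV H hω hm2 (Nat.zero_le n) (by omega)
      have s2 : ‖∫ u, T 0 m u‖ ≤ ε * X :=
        WA.I_Trig.small hV1 hfV H hω (Nat.zero_le n) hm2 (by omega)
      have s3 : ‖p m * (∫ u, T m 0 u) + (starRingEnd ℂ) (p m) * ∫ u, T 0 m u‖ ≤
          2 * ‖p m‖ * (ε * X) := by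
        refine (norm_add_le _ _).trans ?_
        rw [norm_mul, norm_mul, RCLike.norm_conj]
        have t1 := mul_le_mul_of_nonneg_left s1 (norm_nonneg (p m))
        have t2 := mul_le_mul_of_nonneg_left s2 (norm_nonneg (p m))
        linarith
      have s4 := Complex.abs_re_le_norm (p m * (∫ u, T m 0 u) + (starRingEnd ℂ) (p m) * ∫ u, T 0 m u)
      exact (abs_le.mp (s4.trans s3)).1
    have h4 := Finset.sum_le_sum hterm
    have h5 : ∑ m ∈ Finset.Icc 1 n, -(2 * ‖p m‖ * (ε * X)) = -(2 * SP * (ε * X)) := by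
      rw [Finset.sum_neg_distrib, hSP, Finset.mul_sum, Finset.sum_mul]
    rw [h5] at h4
    linarith
  have htot : ∫ u, w u * F u ≤ C₀ * X := H.tot
  -- conclusion
  have h8 : 2 * τ * (∫ u, w u * F u) ≤ c₀ * θ / (8 * Real.pi) * X := by
    calc 2 * τ * (∫ u, w u * F u) ≤ 2 * τ * (C₀ * X) :=
          mul_le_mul_of_nonneg_left htot (by linarith)
      _ = c₀ * θ / (8 * Real.pi) * X := by
          rw [hτ]
          field_simp
          ring
  have h9 : 2 * SP * (ε * X) ≤ c₀ * θ / (8 * Real.pi) * X := by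
    have e : 2 * SP * ε ≤ c₀ * θ / (8 * Real.pi) := by
      have e1 : (1 + 2 * SP) * ε = c₀ * θ / (8 * Real.pi) := by
        rw [hε]
        have : (1 + 2 * SP) ≠ 0 := by positivity
        field_simp
      nlinarith
    calc 2 * SP * (ε * X) = 2 * SP * ε * X := by ring
      _ ≤ _ := mul_le_mul_of_nonneg_right e hX
  have h10 : c₀ / (4 * Real.pi) * θ * X = θ / (2 * Real.pi) * (c₀ * X) -
      c₀ * θ / (8 * Real.pi) * X - c₀ * θ / (8 * Real.pi) * X := by
    field_simp
    ring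
  show c₀ / (4 * Real.pi) * θ * X ≤ ∫ u in sec θ ω f, w u * F u
  rw [h10]
  linarith

end Pool.Agent.Work.MP_56b8f5_nt.SX
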