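import Pool.Agent.Work.MP_56b8f5_nt.SX.Stmts

/-!
MP_56b8f5_nt, block SX, item TrigU2 (helper92): the sector argument for upper bounds without the first harmonic.
-/

set_option autoImplicit false

open MeasureTheory Set Filter Topology

noncomputable section

namespace Pool.Agent.Work.MP_56b8f5_nt.SX

open Pool.Agent.Work.MP_56b8f5_nt.EM Pool.Agent.Work.MP_56b8f5_nt.WM
open Pool.Agent.Work.MP_56b8f5_nt.WA Pool.Agent.Work.MP_56b8f5_nt.SH

namespace I_TrigU2

theorem vnorm {ω V : ℂ} (hω : ‖ω‖ = 1) (hV : ‖V‖ = 1) :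
    ‖(starRingEnd ℂ) ω ^ 2 * (starRingEnd ℂ) V‖ = 1 := by
  rw [norm_mul, norm_pow, RCLike.norm_conj, RCLike.norm_conj, hω, hV]
  norm_num

/-- The square of the direction. -/
theorem zsq {ω f V : ℂ} (hf : f ≠ 0) (hfV : (starRingEnd ℂ) f = V * f) :
    ((starRingEnd ℂ) ω * (f / (‖f‖ : ℂ))) ^ 2 = (starRingEnd ℂ) ω ^ 2 * (starRingEnd ℂ) V := by
  have hn : (‖f‖ : ℂ) ≠ 0 := by simpa using hf
  have h1 : f = (starRingEnd ℂ) V * (starRingEnd ℂ) f := by
    have := congrArg (starRingEnd ℂ) hfV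
    rw [map_mul, Complex.conj_conj] at this
    exact this
  have h2 : f * (starRingEnd ℂ) f = (‖f‖ : ℂ) ^ 2 := by
    rw [Complex.mul_conj, Complex.normSq_eq_norm_sq]
    push_cast
    ring
  have h3 : f ^ 2 = (starRingEnd ℂ) V * (‖f‖ : ℂ) ^ 2 := by
    calc f ^ 2 = f * f := by ring
      _ = f * ((starRingEnd ℂ) V * (starRingEnd ℂ) f) := by rw [← h1]
      _ = (starRingEnd ℂ) V * (f * (starRingEnd ℂ) f) := by ring
      _ = _ := by rw [h2]
  rw [mul_pow, div_pow, h3]
  field_simp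

/-- The pointwise inequality. -/
theorem pt {ω f V : ℂ} (hω : ‖ω‖ = 1) (hV : ‖V‖ = 1) (hfV : (starRingEnd ℂ) f = V * f)
    (n : ℕ) (p0 : ℝ) (p : ℕ → ℂ) (θ τ : ℝ)
    (hK : ∀ z : ℂ, ‖z‖ = 1 → 0 ≤ TP n p0 p z + τ ∧
      (if Real.cos θ < z.re then (1 : ℝ) else 0) ≤ TP n p0 p (z ^ 2) + τ) :
    (if Real.cos θ * ‖f‖ < ((starRingEnd ℂ) ω * f).re then (1 : ℝ) else 0) ≤
      TP n p0 p ((starRingEnd ℂ) ω ^ 2 * (starRingEnd ℂ) V) + τ := by
  split_ifs with hc
  · have hf : f ≠ 0 := by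
      intro h
      rw [h] at hc
      simp at hc
    have hn' : 0 < ‖f‖ := norm_pos_iff.mpr hf
    have hn : (‖f‖ : ℂ) ≠ 0 := by simpa using hf
    set z : ℂ := (starRingEnd ℂ) ω * (f / (‖f‖ : ℂ)) with hz
    have hznorm : ‖z‖ = 1 := by
      rw [hz, norm_mul, norm_div, RCLike.norm_conj, hω, Complex.norm_real, norm_norm,
        div_self hn'.ne', one_mul]
    have hxre : ((starRingEnd ℂ) ω * f).re = ‖f‖ * z.re := by
      have : (starRingEnd ℂ) ω * f = (‖f‖ : ℂ) * z := by
        rw [hz]; field_simp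
      rw [this, Complex.re_ofReal_mul]
    have h1 : Real.cos θ < z.re := by
      rw [hxre, mul_comm (Real.cos θ)] at hc
      exact (mul_lt_mul_iff_right₀ hn').1 hc
    have h2 := (hK z hznorm).2
    rw [if_pos h1, hz, zsq hf hfV] at h2
    exact h2
  · exact (hK _ (vnorm hω hV)).1

end I_TrigU2

open I_TrigU2 in
theorem TrigU2_pf (h1 : WA.S_KerU) (h2 : S_TPc) : S_TrigU2 := by
  intro C₀ hC
  refine ⟨5 * C₀ + 1, by positivity, ?_⟩
  intro θ hθ hθπ
  obtain ⟨n, p0, p, hp0, hK⟩ := h1 θ (θ / 4) hθ hθπ (by linarith)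
  set τ : ℝ := θ / 4 with hτ
  have hpc := h2 n p0 τ p (fun z hz => (hK z hz).1)
  set SP : ℝ := ∑ m ∈ Finset.Icc 1 n, ‖p m‖ with hSP
  have hSP0 : 0 ≤ SP := Finset.sum_nonneg fun m _ => norm_nonneg _
  set ε : ℝ := θ / (1 + 2 * SP) with hε
  have hε0 : 0 < ε := by rw [hε]; positivity
  refine ⟨n, ε, hε0, ?_⟩
  intro w hwc hws hw0 X f V G hX hf hV hG hG0 hV1 hfV htot H ω hω
  have hwC : Continuous fun u => (w u : ℂ) := Complex.continuous_ofReal.comp hwc
  have hwCs : HasCompactSupport fun u => (w u : ℂ) := hws.comp_left Complex.ofReal_zero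
  have hGC : Continuous fun u => (G u : ℂ) := Complex.continuous_ofReal.comp hG
  set T : ℕ → ℝ → ℂ := fun m u => (w u : ℂ) * (V u ^ m * (G u : ℂ)) with hT
  have hTc : ∀ m, Continuous (T m) := fun m => hwC.mul ((hV.pow m).mul hGC)
  have hIT : ∀ m, Integrable (fun u => (starRingEnd ℂ) (T m u)) := by
    intro m
    refine (Complex.continuous_conj.comp (hTc m)).integrable_of_hasCompactSupport ?_
    exact HasCompactSupport.comp_left (g := (starRingEnd ℂ)) hwCs.mul_right (map_zero _)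
  have hIG : Integrable fun u => w u * G u :=
    (hwc.mul hG).integrable_of_hasCompactSupport hws.mul_right
  have hIGC : Integrable fun u => ((w u * G u : ℝ) : ℂ) := hIG.ofReal
  have hmeas : MeasurableSet (sec θ ω f) := by
    unfold sec
    exact (isOpen_lt (continuous_const.mul hf.norm)
      (Complex.continuous_re.comp (continuous_const.mul hf))).measurableSet
  have hnn : 0 ≤ ∫ u, w u * G u := integral_nonneg fun u => mul_nonneg (hw0 u) (hG0 u)
  -- the combination
  set cm : ℕ → ℂ := fun m => 2 * (p m * (starRingEnd ℂ) ω ^ (2 * m)) with hcm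
  set S : ℝ → ℂ := fun u => ((p0 + τ : ℝ) : ℂ) * ((w u * G u : ℝ) : ℂ) +
    ∑ m ∈ Finset.Icc 1 n, cm m * (starRingEnd ℂ) (T m u) with hS
  have hIsum : Integrable fun u => ∑ m ∈ Finset.Icc 1 n, cm m * (starRingEnd ℂ) (T m u) :=
    integrable_finsetSum _ fun m _ => (hIT m).const_mul _
  have hIS : Integrable S := (hIGC.const_mul _).add hIsum
  have hSre : ∀ u, (S u).re =
      w u * G u * (TP n p0 p ((starRingEnd ℂ) ω ^ 2 * (starRingEnd ℂ) (V u)) + τ) := by
    intro u
    have e1 : S u = ((w u * G u : ℝ) : ℂ) * (((p0 + τ : ℝ) : ℂ) +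
        ((2 : ℝ) : ℂ) * ∑ m ∈ Finset.Icc 1 n,
          p m * ((starRingEnd ℂ) ω ^ 2 * (starRingEnd ℂ) (V u)) ^ m) := by
      simp only [hS]
      rw [mul_add, Finset.mul_sum, Finset.mul_sum]
      congr 1
      · ring
      · refine Finset.sum_congr rfl fun m _ => ?_
        simp only [hcm, hT, map_mul, map_pow, Complex.conj_ofReal]
        rw [mul_pow, ← pow_mul]
        push_cast
        ring
    rw [e1, Complex.re_ofReal_mul, Complex.add_re, Complex.ofReal_re, Complex.re_ofReal_mul, TP]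
    ring
  have hlow : (∫ u in sec θ ω f, w u * G u) ≤ (∫ u, S u).re := by
    have e1 : (∫ u, S u).re = ∫ u, (S u).re := by
      have := integral_re hIS
      simpa using this.symm
    rw [e1, ← integral_indicator hmeas]
    refine integral_mono (hIG.indicator hmeas) hIS.re ?_
    intro u
    show (sec θ ω f).indicator (fun u => w u * G u) u ≤ (S u).re
    rw [hSre u]
    have hpt := pt hω (hV1 u) (hfV u) n p0 p θ τ hK
    have hwG : 0 ≤ w u * G u := mul_nonneg (hw0 u) (hG0 u)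
    have h3 := mul_le_mul_of_nonneg_left hpt hwG
    refine le_trans (le_of_eq ?_) h3
    simp only [Set.indicator, sec, Set.mem_ofPred_eq]
    split_ifs <;> ring
  -- upper bound
  have hterm : ∀ m ∈ Finset.Icc 1 n, ‖cm m * ∫ u, (starRingEnd ℂ) (T m u)‖ ≤
      2 * ‖p m‖ * (ε * X) + (if m = 1 then 3 * θ * (C₀ * X) else 0) := by
    intro m hmm
    obtain ⟨hm1, hm2⟩ := Finset.mem_Icc.mp hmm
    have e1 : ∫ u, (starRingEnd ℂ) (T m u) = (starRingEnd ℂ) (∫ u, T m u) := integral_conj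
    have e2 : ‖cm m‖ = 2 * ‖p m‖ := by
      simp only [hcm]
      rw [norm_mul, norm_mul, norm_pow, RCLike.norm_conj, hω, one_pow, mul_one]
      norm_num
    rw [norm_mul, e1, RCLike.norm_conj, e2]
    have hεX : 0 ≤ 2 * ‖p m‖ * (ε * X) := by positivity
    by_cases h : m = 1
    · rw [if_pos h]
      have s1 : ‖∫ u, T m u‖ ≤ C₀ * X := by
        refine (norm_integral_le_integral_norm _).trans (le_trans (le_of_eq ?_) htot)
        refine integral_congr_ae (Eventually.of_forall fun u => ?_)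
        simp only [hT]
        rw [norm_mul, norm_mul, norm_pow, hV1 u, one_pow, one_mul, Complex.norm_real,
          Complex.norm_real, Real.norm_of_nonneg (hw0 u), Real.norm_of_nonneg (hG0 u)]
      have s2 : ‖p m‖ ≤ 3 / 2 * θ := by
        refine (hpc m hm1 hm2).trans ?_
        rw [hτ] at hp0 ⊢
        linarith
      have hCX : 0 ≤ C₀ * X := mul_nonneg hC.le hX
      have s3 : ‖p m‖ * ‖∫ u, T m u‖ ≤ 3 / 2 * θ * (C₀ * X) :=
        mul_le_mul s2 s1 (norm_nonneg _) (by positivity)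
      linarith
    · rw [if_neg h, add_zero]
      have s1 : ‖∫ u, T m u‖ ≤ ε * X := H m (by omega) hm2
      exact mul_le_mul_of_nonneg_left s1 (by positivity)
  have hup : (∫ u, S u).re ≤ (5 * C₀ + 1) * θ * X := by
    have hSint : ∫ u, S u = ((p0 + τ : ℝ) : ℂ) * ((∫ u, w u * G u : ℝ) : ℂ) +
        ∑ m ∈ Finset.Icc 1 n, cm m * ∫ u, (starRingEnd ℂ) (T m u) := by
      rw [hS, integral_add (hIGC.const_mul _) hIsum, integral_const_mul,
        integral_finsetSum _ fun m _ => (hIT m).const_mul _]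
      congr 1
      · congr 1
        exact integral_ofReal
      · refine Finset.sum_congr rfl fun m _ => ?_
        rw [integral_const_mul]
    rw [hSint, Complex.add_re, Complex.re_ofReal_mul, Complex.ofReal_re]
    have t1 : (p0 + τ) * ∫ u, w u * G u ≤ 3 / 2 * θ * (C₀ * X) := by
      have a1 : (p0 + τ) * ∫ u, w u * G u ≤ 3 / 2 * θ * ∫ u, w u * G u := by
        refine mul_le_mul_of_nonneg_right ?_ hnn
        rw [hτ] at hp0 ⊢
        linarith
      exact a1.trans (mul_le_mul_of_nonneg_left htot (by positivity))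
    have t2 : (∑ m ∈ Finset.Icc 1 n, cm m * ∫ u, (starRingEnd ℂ) (T m u)).re ≤
        2 * SP * (ε * X) + 3 * θ * (C₀ * X) := by
      refine (Complex.re_le_norm _).trans ((norm_sum_le _ _).trans
        ((Finset.sum_le_sum hterm).trans ?_))
      rw [Finset.sum_add_distrib, Finset.sum_ite_eq', ← Finset.sum_mul, ← Finset.mul_sum]
      have hCX : 0 ≤ 3 * θ * (C₀ * X) := by positivity
      split_ifs <;> linarith
    have t3 : 2 * SP * (ε * X) ≤ θ * X := by
      have e : 2 * SP * ε ≤ θ := by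
        have e1 : (1 + 2 * SP) * ε = θ := by
          rw [hε]
          have : (1 + 2 * SP) ≠ 0 := by positivity
          field_simp
        nlinarith
      calc 2 * SP * (ε * X) = 2 * SP * ε * X := by ring
        _ ≤ _ := mul_le_mul_of_nonneg_right e hX
    have t4 : 0 ≤ θ * (C₀ * X) := by positivity
    nlinarith
  exact hlow.trans hup

end Pool.Agent.Work.MP_56b8f5_nt.SX
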