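import Pool.Agent.Work.MP_56b8f5_nt.SX.Stmts

/-!
MP_56b8f5_nt, block SX, item Y9 (UpK): upper bounds for the moments with the kernel in the sector.
-/

set_option autoImplicit false

open MeasureTheory Set Filter Topology

noncomputable section

namespace Pool.Agent.Work.MP_56b8f5_nt.SX

open Pool.Agent.Work.MP_56b8f5_nt.EM Pool.Agent.Work.MP_56b8f5_nt.WM
open Pool.Agent.Work.MP_56b8f5_nt.WA Pool.Agent.Work.MP_56b8f5_nt.SH

namespace I_UpK

lemma hcs {w : ℝ → ℝ} (hw : IsW w) : HasCompactSupport w := by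
  obtain ⟨c, hc, h⟩ := hw.supp
  refine HasCompactSupport.intro (K := Icc c 1) isCompact_Icc ?_
  intro u hu
  by_contra hne
  exact hu ⟨(h u hne).1, (h u hne).2⟩

lemma cont_TE {f : ℝ → ℂ} (l : ℕ) (hf : Continuous f) : Continuous fun t => TE l (f t) := by
  unfold TE
  fun_prop

lemma cont_NN (M : ℕ) (S : ℕ → Finset ℕ) (l : ℕ → ℕ) (a b : ℝ)
    (hS : ∀ S : Finset ℕ, Continuous fun t : ℝ => PS S t) : Continuous (NN M S l a b) := by
  unfold NN
  refine continuous_finsetProd _ fun j _ => ?_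
  have h := hS (S j)
  exact (cont_TE _ (by fun_prop)).mul (cont_TE _ (by fun_prop))

lemma cont_Nb (M : ℕ) (S : ℕ → Finset ℕ) (l : ℕ → ℕ) (β : ℝ)
    (hS : ∀ S : Finset ℕ, Continuous fun t : ℝ => PS S t) : Continuous (Nb M S l β) :=
  (cont_NN M S l _ _ hS).norm

lemma cont_Ph (M : ℕ) (S : ℕ → Finset ℕ) (l : ℕ → ℕ) (K : ℕ) (V : ℝ)
    (hS : ∀ S : Finset ℕ, Continuous fun t : ℝ => PS S t) : Continuous (Ph M S l K V) := by
  unfold Ph
  refine continuous_finsetSum _ fun k _ => ?_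
  refine continuous_const.mul (continuous_finsetProd _ fun j _ => ?_)
  have h := hS (S j)
  have h' : Continuous fun t : ℝ => (starRingEnd ℂ) (PS (S j) t) :=
    Complex.continuous_conj.comp h
  exact (cont_TE _ (by fun_prop)).mul (cont_TE _ (by fun_prop))

lemma se_nonneg (S : Finset ℕ) : 0 ≤ se S := by
  unfold se
  positivity

lemma Di_one {C s : ℝ} (hC : 0 ≤ C) (hs : 0 ≤ s) (r : ℕ) : 1 ≤ Di C s r := by
  unfold Di
  split_ifs
  · exact le_rfl
  · have h1 : (1 : ℝ) ≤ (r.factorial : ℝ) := by exact_mod_cast r.factorial_pos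
    have h2 : (1 : ℝ) ≤ (r.factorial : ℝ) ^ 2 := one_le_pow₀ h1
    have h3 : (1 : ℝ) ≤ Real.exp (C * s) := Real.one_le_exp (mul_nonneg hC hs)
    exact one_le_mul_of_one_le_of_one_le h2 h3

lemma Di_mono {C C' s : ℝ} (hC : C ≤ C') (hs : 0 ≤ s) (r : ℕ) : Di C s r ≤ Di C' s r := by
  unfold Di
  split_ifs
  · exact le_rfl
  · gcongr

lemma Th_nonneg (K : ℕ) (s : ℝ) : 0 ≤ Th K s := by
  unfold Th
  exact Finset.sum_nonneg fun k _ => Finset.sum_nonneg fun k' _ => (Real.exp_pos _).le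

lemma Xx_nonneg (M : ℕ) (S : ℕ → Finset ℕ) (K : ℕ) (β : ℝ) : 0 ≤ Xx M S K β :=
  mul_nonneg (Real.exp_pos _).le (Th_nonneg _ _)

/-- The errors are small. -/
lemma small (h4 : SH.S_Th) {c A e T L : ℝ} {K : ℕ} {M : ℕ} {S : ℕ → Finset ℕ} {β : ℝ}
    (hK : 1 ≤ K) (hs : 1 ≤ st M S) (hup : Real.exp (st M S) ≤ L) (hc : c ≤ A) (hA : 0 ≤ A)
    (hT : 0 < T) (hb : A * (2 * L) ≤ e * T ^ (1 / 48 : ℝ)) :
    c * (K : ℝ) ^ 2 / T ^ (1 / 48 : ℝ) ≤ e * Xx M S K β := by
  have hTp : 0 < T ^ (1 / 48 : ℝ) := Real.rpow_pos_of_pos hT _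
  have h1 := h4 K (st M S) hK hs
  have hsq1 : 1 ≤ Real.sqrt (st M S) := Real.one_le_sqrt.2 hs
  have hsqL : Real.sqrt (st M S) ≤ L := by
    have h2 : Real.sqrt (st M S) ≤ st M S := by
      have h3 := Real.sq_sqrt (by linarith : (0 : ℝ) ≤ st M S)
      nlinarith
    have h3 := Real.add_one_le_exp (st M S)
    linarith
  have hX : Th K (st M S) ≤ Xx M S K β := by
    unfold Xx
    have h5 : (1 : ℝ) ≤ Real.exp (β ^ 2 * st M S) :=
      Real.one_le_exp (mul_nonneg (sq_nonneg _) (by linarith))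
    exact le_mul_of_one_le_left (Th_nonneg _ _) h5
  have hX0 : 0 ≤ Xx M S K β := Xx_nonneg _ _ _ _
  have hK2 : (K : ℝ) ^ 2 ≤ 2 * L * Xx M S K β := by
    have h6 : (K : ℝ) ^ 2 / (2 * Real.sqrt (st M S)) ≤ Xx M S K β := h1.trans hX
    rw [div_le_iff₀ (by linarith)] at h6
    refine h6.trans ?_
    rw [mul_comm]
    exact mul_le_mul_of_nonneg_right (by linarith) hX0
  rw [div_le_iff₀ hTp]
  calc c * (K : ℝ) ^ 2 ≤ A * (K : ℝ) ^ 2 := mul_le_mul_of_nonneg_right hc (sq_nonneg _)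
    _ ≤ A * (2 * L * Xx M S K β) := mul_le_mul_of_nonneg_left hK2 hA
    _ = A * (2 * L) * Xx M S K β := by ring
    _ ≤ e * T ^ (1 / 48 : ℝ) * Xx M S K β := mul_le_mul_of_nonneg_right hb hX0
    _ = e * Xx M S K β * T ^ (1 / 48 : ℝ) := by ring

lemma large (A e : ℝ) (he : 0 < e) : ∃ T₀ : ℝ, ∀ T : ℝ, T₀ ≤ T →
    A * (2 * Real.log T) ≤ e * T ^ (1 / 48 : ℝ) := by
  have h1 : (fun T : ℝ => Real.log T) =o[atTop] fun T : ℝ => T ^ (1 / 48 : ℝ) :=
    isLittleO_log_rpow_atTop (by norm_num)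
  have h2 := h1.bound (c := e / (2 * |A| + 1)) (by positivity)
  obtain ⟨T₀, h3⟩ := eventually_atTop.1 (h2.and (eventually_ge_atTop (1 : ℝ)))
  refine ⟨T₀, fun T hT => ?_⟩
  obtain ⟨h4, h5⟩ := h3 T hT
  have h6 : 0 ≤ Real.log T := Real.log_nonneg h5
  have h7 : 0 ≤ T ^ (1 / 48 : ℝ) := Real.rpow_nonneg (by linarith) _
  rw [Real.norm_of_nonneg h6, Real.norm_of_nonneg h7] at h4
  have hp : (0 : ℝ) < 2 * |A| + 1 := by positivity
  have h8 : (2 * |A| + 1) * Real.log T ≤ e * T ^ (1 / 48 : ℝ) := by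
    have h9 := mul_le_mul_of_nonneg_left h4 hp.le
    have h10 : (2 * |A| + 1) * (e / (2 * |A| + 1) * T ^ (1 / 48 : ℝ)) = e * T ^ (1 / 48 : ℝ) := by
      field_simp
    linarith
  have h11 : A * Real.log T ≤ |A| * Real.log T :=
    mul_le_mul_of_nonneg_right (le_abs_self A) h6
  nlinarith

end I_UpK

open I_UpK in
/-- **Y9 (UpK)** -/
theorem UpK_pf (h1 : SH.S_Kin) (h2 : S_OsK) (h3 : S_TrigU2) (h4 : SH.S_Th) (h5 : SH.S_Cha)
    (h0 : WA.S_UZ) : S_UpK := by
  intro w hw hw0 B hB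
  have hPc : ∀ S : Finset ℕ, Continuous fun t : ℝ => PS S t := h5.2.2.2.2.2.2.2.2.1
  obtain ⟨ε₁, η₀, C₀, T₁, hε1, hε1', hη0, hC0, hT1, HK⟩ := h1 w hw hw0 B hB
  obtain ⟨ε₂, hε2, hε2', HO⟩ := h2 w hw B hB
  obtain ⟨C₁, hC1, HT⟩ := h3 C₀ (by linarith)
  choose! CO TO hCO0 hTO1 hO using HO
  refine ⟨min ε₁ ε₂, η₀, max C₀ C₁, lt_min hε1 hε2, (min_le_left _ _).trans hε1', hη0,
    hC0.trans (le_max_left _ _), ?_⟩
  intro θ hθ hθπ
  obtain ⟨n, e, he, HT'⟩ := HT θ hθ hθπ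
  obtain ⟨T₂, hT2⟩ := large (∑ a ∈ Finset.range (n + 1), |CO a|) e he
  refine ⟨max (max 3 T₁) (max (∑ a ∈ Finset.range (n + 1), |TO a|) T₂),
    (le_max_left _ _).trans (le_max_left _ _), ?_⟩
  intro T hT ε c η hε hεε hc hc2 hη hηη M S l y hsys hs K β V ω i r hK hβ hω hir
  have hT3 : 3 ≤ T := ((le_max_left _ _).trans (le_max_left _ _)).trans hT
  have hTT1 : T₁ ≤ T := ((le_max_right _ _).trans (le_max_left _ _)).trans hT
  have hTTb : ∑ a ∈ Finset.range (n + 1), |TO a| ≤ T :=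
    ((le_max_left _ _).trans (le_max_right _ _)).trans hT
  have hTT2 : T₂ ≤ T := ((le_max_right _ _).trans (le_max_right _ _)).trans hT
  have hCle : ∀ a ≤ n, CO a ≤ ∑ a ∈ Finset.range (n + 1), |CO a| := fun a ha =>
    (le_abs_self _).trans (Finset.single_le_sum (f := fun a => |CO a|)
      (fun _ _ => abs_nonneg _) (Finset.mem_range.2 (by omega)))
  have hTle : ∀ a ≤ n, TO a ≤ T := fun a ha =>
    ((le_abs_self _).trans (Finset.single_le_sum (f := fun a => |TO a|)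
      (fun _ _ => abs_nonneg _) (Finset.mem_range.2 (by omega)))).trans hTTb
  have hA0 : 0 ≤ ∑ a ∈ Finset.range (n + 1), |CO a| := Finset.sum_nonneg fun _ _ => abs_nonneg _
  have hlin : Continuous fun u : ℝ => T * u := continuous_const.mul continuous_id
  have hse : 0 ≤ se (S i) := se_nonneg _
  have hD1 : 1 ≤ Di C₀ (se (S i)) r := Di_one (by linarith) hse r
  have hDm : Di C₀ (se (S i)) r ≤ Di (max C₀ C₁) (se (S i)) r :=
    Di_mono (le_max_left _ _) hse r
  have hX0 : 0 ≤ Xx M S K β := Xx_nonneg _ _ _ _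
  have hlogT : 0 ≤ Real.log T := Real.log_nonneg (by linarith)
  have hF1 : 1 ≤ 1 + Real.log T * Real.exp (-(st M S)) := by
    have := mul_nonneg hlogT (Real.exp_pos (-(st M S))).le
    linarith
  have hsm : ∀ a ≤ n, CO a * (K : ℝ) ^ 2 / T ^ (1 / 48 : ℝ) ≤ e * Xx M S K β := fun a ha =>
    small h4 hK hs hsys.up (hCle a ha) hA0 (by linarith) (hT2 T hTT2)
  have hKin := (HK T hTT1 ε c η hε (hεε.trans (min_le_left _ _)) hc hc2 hη hηη M S l y hsys K β V
    hK hβ).1 i r hir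
  have hβ2 : |β / 2| ≤ B := by
    rw [abs_div, abs_of_pos (by norm_num : (0 : ℝ) < 2)]
    have := abs_nonneg β
    linarith
  have hβ3 : |(β - 1) / 2| ≤ B := by
    rw [abs_div, abs_of_pos (by norm_num : (0 : ℝ) < 2)]
    have h6 : |β - 1| ≤ |β| + 1 := by
      have := abs_sub β 1
      rwa [abs_one] at this
    linarith
  constructor
  · have hX1 : 0 ≤ Di C₀ (se (S i)) r * Xx M S K β := mul_nonneg (by linarith) hX0
    have hle : Xx M S K β ≤ Di C₀ (se (S i)) r * Xx M S K β :=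
      le_mul_of_one_le_left hX0 hD1
    have hG : Continuous fun u : ℝ => Nb M S l β (T * u) ^ 2 *
        (‖PS (S i) (T * u)‖ ^ (2 * r) * ‖Ph M S l K V (T * u)‖ ^ 2) :=
      (((cont_Nb M S l β hPc).comp hlin).pow 2).mul
        (((((hPc (S i)).comp hlin).norm).pow _).mul
          ((((cont_Ph M S l K V hPc).comp hlin).norm).pow 2))
    have hfin := HT' w hw.smooth.continuous (hcs hw) hw.nonneg (Di C₀ (se (S i)) r * Xx M S K β)
      (zf T) (fun u => WA.U (T * u)) (fun u => Nb M S l β (T * u) ^ 2 *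
        (‖PS (S i) (T * u)‖ ^ (2 * r) * ‖Ph M S l K V (T * u)‖ ^ 2)) hX1
      (h0.2.1.comp hlin) (h0.1.comp hlin) hG (fun u => by positivity)
      (fun u => h0.2.2.1 _) (fun u => h0.2.2.2 _) ?_ ?_ ω hω
    · refine hfin.trans ?_
      have h7 : C₁ ≤ max C₀ C₁ := le_max_right _ _
      calc C₁ * θ * (Di C₀ (se (S i)) r * Xx M S K β)
          ≤ max C₀ C₁ * θ * (Di (max C₀ C₁) (se (S i)) r * Xx M S K β) := by
            have hD0 : 0 ≤ Di C₀ (se (S i)) r := by linarith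
            gcongr
        _ = _ := by ring
    · refine hKin.1.trans (le_of_eq ?_)
      unfold Xx
      ring
    · intro a ha2 han
      have h8 := (hO a (by omega) T (hTle a han) ε c η hε (hεε.trans (min_le_right _ _)) M S l y
        hsys K V (β / 2) (β / 2) (β / 2) (β / 2) i r hK hβ2 hβ2 hβ2 hβ2 hir).1
      have h9 : (∫ u : ℝ, (w u : ℂ) * (WA.U (T * u) ^ a * ((Nb M S l β (T * u) ^ 2 *
          (‖PS (S i) (T * u)‖ ^ (2 * r) * ‖Ph M S l K V (T * u)‖ ^ 2) : ℝ) : ℂ))) =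
          ∫ u : ℝ, (w u : ℂ) * (WA.U (T * u) ^ a *
          (NN M S l (β / 2) (β / 2) (T * u) *
            (starRingEnd ℂ) (NN M S l (β / 2) (β / 2) (T * u)) *
            ((‖PS (S i) (T * u)‖ ^ (2 * r) * ‖Ph M S l K V (T * u)‖ ^ 2 : ℝ) : ℂ))) := by
        refine integral_congr_ae (Eventually.of_forall fun u => ?_)
        simp only
        rw [Complex.mul_conj, Complex.normSq_eq_norm_sq]
        unfold Nb
        push_cast
        ring
      rw [h9]
      exact h8.trans ((hsm a han).trans (mul_le_mul_of_nonneg_left hle he.le))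
  · have hX2 : 0 ≤ (1 + Real.log T * Real.exp (-(st M S))) * Di C₀ (se (S i)) r * Xx M S K β :=
      mul_nonneg (mul_nonneg (by linarith) (by linarith)) hX0
    have hle : Xx M S K β ≤
        (1 + Real.log T * Real.exp (-(st M S))) * Di C₀ (se (S i)) r * Xx M S K β :=
      le_mul_of_one_le_left hX0 (one_le_mul_of_one_le_of_one_le hF1 hD1)
    have haz : Continuous az := by
      have h10 : az = fun t => ‖zt t‖ := rfl
      rw [h10]
      exact h0.2.1.norm
    have hG : Continuous fun u : ℝ => az (T * u) ^ 2 * (Nb M S l (β - 1) (T * u) ^ 2 *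
        (‖PS (S i) (T * u)‖ ^ (2 * r) * ‖Ph M S l K V (T * u)‖ ^ 2)) :=
      ((haz.comp hlin).pow 2).mul ((((cont_Nb M S l (β - 1) hPc).comp hlin).pow 2).mul
        (((((hPc (S i)).comp hlin).norm).pow _).mul
          ((((cont_Ph M S l K V hPc).comp hlin).norm).pow 2)))
    have hfin := HT' w hw.smooth.continuous (hcs hw) hw.nonneg
      ((1 + Real.log T * Real.exp (-(st M S))) * Di C₀ (se (S i)) r * Xx M S K β)
      (zf T) (fun u => WA.U (T * u)) (fun u => az (T * u) ^ 2 * (Nb M S l (β - 1) (T * u) ^ 2 *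
        (‖PS (S i) (T * u)‖ ^ (2 * r) * ‖Ph M S l K V (T * u)‖ ^ 2))) hX2
      (h0.2.1.comp hlin) (h0.1.comp hlin) hG (fun u => by positivity)
      (fun u => h0.2.2.1 _) (fun u => h0.2.2.2 _) ?_ ?_ ω hω
    · refine hfin.trans ?_
      have h7 : C₁ ≤ max C₀ C₁ := le_max_right _ _
      calc C₁ * θ * ((1 + Real.log T * Real.exp (-(st M S))) * Di C₀ (se (S i)) r * Xx M S K β)
          ≤ max C₀ C₁ * θ * ((1 + Real.log T * Real.exp (-(st M S))) *
              Di (max C₀ C₁) (se (S i)) r * Xx M S K β) := by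
            have hD0 : 0 ≤ Di C₀ (se (S i)) r := by linarith
            have hF0 : 0 ≤ 1 + Real.log T * Real.exp (-(st M S)) := by linarith
            gcongr
        _ = _ := by ring
    · refine hKin.2.trans (le_of_eq ?_)
      unfold Xx
      ring
    · intro a ha2 han
      have h8 := (hO (a - 1) (by omega) T (hTle (a - 1) (by omega)) ε c η hε
        (hεε.trans (min_le_right _ _)) M S l y
        hsys K V ((β - 1) / 2) ((β - 1) / 2) ((β - 1) / 2) ((β - 1) / 2) i r hK hβ3 hβ3 hβ3 hβ3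
        hir).2
      have h9 : (∫ u : ℝ, (w u : ℂ) * (WA.U (T * u) ^ a *
          ((az (T * u) ^ 2 * (Nb M S l (β - 1) (T * u) ^ 2 *
          (‖PS (S i) (T * u)‖ ^ (2 * r) * ‖Ph M S l K V (T * u)‖ ^ 2)) : ℝ) : ℂ))) =
          ∫ u : ℝ, (w u : ℂ) * (WA.U (T * u) ^ (a - 1) * ((starRingEnd ℂ) (zt (T * u)) ^ 2 *
          (NN M S l ((β - 1) / 2) ((β - 1) / 2) (T * u) *
            (starRingEnd ℂ) (NN M S l ((β - 1) / 2) ((β - 1) / 2) (T * u)) *
            ((‖PS (S i) (T * u)‖ ^ (2 * r) * ‖Ph M S l K V (T * u)‖ ^ 2 : ℝ) : ℂ)))) := by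
        refine integral_congr_ae (Eventually.of_forall fun u => ?_)
        simp only
        obtain ⟨b, rfl⟩ : ∃ b, a = b + 1 := ⟨a - 1, by omega⟩
        rw [show b + 1 - 1 = b from rfl]
        have h11 : ((az (T * u) : ℝ) : ℂ) ^ 2 = zt (T * u) * (starRingEnd ℂ) (zt (T * u)) := by
          rw [Complex.mul_conj, Complex.normSq_eq_norm_sq]
          push_cast
          rfl
        have h12 := h0.2.2.2 (T * u)
        rw [Complex.mul_conj, Complex.normSq_eq_norm_sq]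
        unfold Nb
        push_cast
        rw [h11]
        have h13 : WA.U (T * u) ^ (b + 1) * (zt (T * u) * (starRingEnd ℂ) (zt (T * u))) =
            WA.U (T * u) ^ b * (starRingEnd ℂ) (zt (T * u)) ^ 2 := by
          rw [sq]
          nth_rewrite 2 [h12]
          ring
        linear_combination (w u : ℂ) * (((‖NN M S l ((β - 1) / 2) ((β - 1) / 2) (T * u)‖ : ℝ) : ℂ)
          ^ 2 * (((‖PS (S i) (T * u)‖ : ℝ) : ℂ) ^ (2 * r) *
            ((‖Ph M S l K V (T * u)‖ : ℝ) : ℂ) ^ 2)) * h13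
      rw [h9]
      exact h8.trans ((hsm (a - 1) (by omega)).trans (mul_le_mul_of_nonneg_left hle he.le))

end Pool.Agent.Work.MP_56b8f5_nt.SX
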