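import Pool.Agent.Work.MP_56b8f5_nt.WA.AllB
import Pool.Agent.Work.MP_56b8f5_nt.SH.I_AtT
import Pool.Agent.Work.MP_56b8f5_nt.SH.I_Bad
import Pool.Agent.Work.MP_56b8f5_nt.SH.I_Cau
import Pool.Agent.Work.MP_56b8f5_nt.SH.I_Cha
import Pool.Agent.Work.MP_56b8f5_nt.SH.I_Dir
import Pool.Agent.Work.MP_56b8f5_nt.SH.I_Exd
import Pool.Agent.Work.MP_56b8f5_nt.SH.I_Fac
import Pool.Agent.Work.MP_56b8f5_nt.SH.I_GF
import Pool.Agent.Work.MP_56b8f5_nt.SH.I_Gn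
import Pool.Agent.Work.MP_56b8f5_nt.SH.I_GnO
import Pool.Agent.Work.MP_56b8f5_nt.SH.I_HyA
import Pool.Agent.Work.MP_56b8f5_nt.SH.I_Ins
import Pool.Agent.Work.MP_56b8f5_nt.SH.I_KAe
import Pool.Agent.Work.MP_56b8f5_nt.SH.I_KMul
import Pool.Agent.Work.MP_56b8f5_nt.SH.I_KapI
import Pool.Agent.Work.MP_56b8f5_nt.SH.I_Kin
import Pool.Agent.Work.MP_56b8f5_nt.SH.I_Lin
import Pool.Agent.Work.MP_56b8f5_nt.SH.I_Loc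
import Pool.Agent.Work.MP_56b8f5_nt.SH.I_Lsm
import Pool.Agent.Work.MP_56b8f5_nt.SH.I_MuH
import Pool.Agent.Work.MP_56b8f5_nt.SH.I_MuR
import Pool.Agent.Work.MP_56b8f5_nt.SH.I_NmL
import Pool.Agent.Work.MP_56b8f5_nt.SH.I_NumS
import Pool.Agent.Work.MP_56b8f5_nt.SH.I_PolI
import Pool.Agent.Work.MP_56b8f5_nt.SH.I_Pr0
import Pool.Agent.Work.MP_56b8f5_nt.SH.I_Pr1
import Pool.Agent.Work.MP_56b8f5_nt.SH.I_Pr2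
import Pool.Agent.Work.MP_56b8f5_nt.SH.I_PrA
import Pool.Agent.Work.MP_56b8f5_nt.SH.I_PrO
import Pool.Agent.Work.MP_56b8f5_nt.SH.I_Prd
import Pool.Agent.Work.MP_56b8f5_nt.SH.I_Prm
import Pool.Agent.Work.MP_56b8f5_nt.SH.I_Prs
import Pool.Agent.Work.MP_56b8f5_nt.SH.I_Pw
import Pool.Agent.Work.MP_56b8f5_nt.SH.I_PwL
import Pool.Agent.Work.MP_56b8f5_nt.SH.I_PwN
import Pool.Agent.Work.MP_56b8f5_nt.SH.I_PwU
import Pool.Agent.Work.MP_56b8f5_nt.SH.I_Rv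
import Pool.Agent.Work.MP_56b8f5_nt.SH.I_RvA
import Pool.Agent.Work.MP_56b8f5_nt.SH.I_RvF
import Pool.Agent.Work.MP_56b8f5_nt.SH.I_ScM
import Pool.Agent.Work.MP_56b8f5_nt.SH.I_Scl
import Pool.Agent.Work.MP_56b8f5_nt.SH.I_SecR
import Pool.Agent.Work.MP_56b8f5_nt.SH.I_Ser
import Pool.Agent.Work.MP_56b8f5_nt.SH.I_Sg
import Pool.Agent.Work.MP_56b8f5_nt.SH.I_Sys
import Pool.Agent.Work.MP_56b8f5_nt.SH.I_TEe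
import Pool.Agent.Work.MP_56b8f5_nt.SH.I_Tau
import Pool.Agent.Work.MP_56b8f5_nt.SH.I_Th
import Pool.Agent.Work.MP_56b8f5_nt.SH.I_Tl
import Pool.Agent.Work.MP_56b8f5_nt.SX.I_PrU0
import Pool.Agent.Work.MP_56b8f5_nt.SX.I_PrU2
import Pool.Agent.Work.MP_56b8f5_nt.SX.I_GnU
import Pool.Agent.Work.MP_56b8f5_nt.SX.I_OsK
import Pool.Agent.Work.MP_56b8f5_nt.SX.I_TrigL2
import Pool.Agent.Work.MP_56b8f5_nt.SX.I_LoS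
import Pool.Agent.Work.MP_56b8f5_nt.SX.I_TPc
import Pool.Agent.Work.MP_56b8f5_nt.SX.I_TrigU2
import Pool.Agent.Work.MP_56b8f5_nt.SX.I_UpK
import Pool.Agent.Work.MP_56b8f5_nt.SX.I_BadS
import Pool.Agent.Work.MP_56b8f5_nt.SX.I_AtTS
import Pool.Agent.Work.MP_56b8f5_nt.SX.I_MainS
import Pool.Agent.Work.MP_56b8f5_nt.SX.I_MomS

/-!
MP_56b8f5_nt, block SX (the sharp lower bound in sectors): assembly.
-/

set_option autoImplicit false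

noncomputable section

namespace Pool.Agent.Work.MP_56b8f5_nt.SX

open Pool.Agent.Work.MP_56b8f5_nt.EM Pool.Agent.Work.MP_56b8f5_nt.WM
open Pool.Agent.Work.MP_56b8f5_nt.WA (wa_UZ wa_Osc wa_OscZ wb_KerL wb_KerU wb_ZPK wb_Osc3)

/-! ### Block SH -/

theorem sh_Cha : SH.S_Cha := SH.Cha_pf
theorem sh_TEe : SH.S_TEe := SH.TEe_pf
theorem sh_PolI : SH.S_PolI := SH.PolI_pf
theorem sh_Exd : SH.S_Exd := SH.Exd_pf sh_Cha sh_PolI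
theorem sh_KapI : SH.S_KapI := SH.KapI_pf
theorem sh_KMul : SH.S_KMul := SH.KMul_pf
theorem sh_Fac : SH.S_Fac := SH.Fac_pf sh_KapI sh_KMul
theorem sh_KAe : SH.S_KAe := SH.KAe_pf
theorem sh_MuR : SH.S_MuR := SH.MuR_pf sh_KMul sh_KAe
theorem sh_Cau : SH.S_Cau := SH.Cau_pf
theorem sh_Lsm : SH.S_Lsm := SH.Lsm_pf
theorem sh_GF : SH.S_GF := SH.GF_pf sh_KapI sh_MuR sh_Cau sh_Lsm
theorem sh_Loc : SH.S_Loc := SH.Loc_pf sh_Lsm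
theorem sh_Prd : SH.S_Prd := SH.Prd_pf sh_Loc
theorem sh_MuH : SH.S_MuH := SH.MuH_pf
theorem sh_Ins : SH.S_Ins := SH.Ins_pf sh_KapI sh_KAe sh_GF sh_Prd sh_MuH
theorem sh_Tl : SH.S_Tl := SH.Tl_pf sh_KapI sh_KAe sh_GF sh_Prd sh_MuH
theorem sh_Scl : SH.S_Scl := SH.Scl_pf sh_Prd sh_Tl
theorem sh_NmL : SH.S_NmL := SH.NmL_pf sh_KMul
theorem sh_Lin : SH.S_Lin := SH.Lin_pf sh_Cha
theorem sh_SecR : SH.S_SecR :=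
  SH.iSecR all_W all_Exp all_Far all_Reo all_Sum all_Var iPROG all_Small all_Near iLOG
theorem sh_Pr0 : SH.S_Pr0 := SH.Pr0_pf all_W
theorem sh_Pr1 : SH.S_Pr1 := SH.Pr1_pf all_W all_Pc wm_ZP wm_FMx sh_Cha
theorem sh_Pr2 : SH.S_Pr2 := SH.Pr2_pf sh_SecR wm_ZP all_Sec all_Pc sh_Cha
theorem sh_Gn : SH.S_Gn := SH.Gn_pf sh_Cha sh_Lin sh_Pr0 sh_Pr1 sh_Pr2 sh_NmL
theorem sh_ScM : SH.S_ScM := SH.ScM_pf wm_Mert
theorem sh_Ser : SH.S_Ser := SH.Ser_pf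
theorem sh_Sys : SH.S_Sys := SH.Sys_pf sh_ScM sh_Ser
theorem sh_Sg : SH.S_Sg := SH.Sg_pf sh_KapI sh_KAe sh_Ins sh_Scl
theorem sh_Prs : SH.S_Prs := SH.Prs_pf sh_PolI sh_KapI sh_Fac sh_Sg
theorem sh_Prm : SH.S_Prm := SH.Prm_pf sh_PolI sh_KapI sh_Gn sh_Prs
theorem sh_Kin : SH.S_Kin := SH.Kin_pf sh_Cha sh_Exd sh_Prm
theorem sh_Tau : SH.S_Tau := SH.Tau_pf
theorem sh_Th : SH.S_Th := SH.Th_pf
theorem sh_PwN : SH.S_PwN := SH.PwN_pf sh_TEe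
theorem sh_PwL : SH.S_PwL := SH.PwL_pf sh_TEe
theorem sh_Dir : SH.S_Dir := SH.Dir_pf
theorem sh_PwU : SH.S_PwU := SH.PwU_pf sh_TEe sh_Dir
theorem sh_Pw : SH.S_Pw := SH.Pw_pf sh_PwN sh_PwL sh_PwU
theorem sh_Rv : SH.S_Rv := SH.Rv_pf SH.RvA_pf SH.RvF_pf
theorem sh_NumS : SH.S_NumS := SH.NumS_pf

/-! ### Block SHA -/

theorem sh_PrO : SH.S_PrO := SH.PrO_pf sh_Cha wa_OscZ
theorem sh_GnO : SH.S_GnO := SH.GnO_pf wa_UZ sh_Lin sh_NmL sh_PrO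
theorem sh_PrA : SH.S_PrA := SH.PrA_pf sh_Gn sh_Prs sh_PolI sh_KapI
theorem sh_HyA : SH.S_HyA :=
  SH.HyA_pf sh_Cha wa_UZ sh_Exd sh_Prm sh_Kin sh_PrA sh_GnO sh_Th sh_PolI

/-! ### Block SX -/

theorem sx_PrU0 : S_PrU0 := PrU0_pf wa_Osc
theorem sx_PrU2 : S_PrU2 := PrU2_pf all_Pc wb_ZPK wm_TSb wa_UZ wb_Osc3 sh_Cha
theorem sx_GnU : S_GnU := GnU_pf sx_PrU0 sx_PrU2 sh_Lin sh_NmL wa_UZ
theorem sx_OsK : S_OsK := OsK_pf sx_GnU sh_Exd sh_PolI sh_Cha wa_UZ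
theorem sx_TrigL2 : S_TrigL2 := TrigL2_pf wb_KerL
theorem sx_LoS : S_LoS := LoS_pf sh_HyA sx_TrigL2 sh_Cha wa_UZ
theorem sx_TPc : S_TPc := TPc_pf
theorem sx_TrigU2 : S_TrigU2 := TrigU2_pf wb_KerU sx_TPc
theorem sx_UpK : S_UpK := UpK_pf sh_Kin sx_OsK sx_TrigU2 sh_Th sh_Cha wa_UZ
theorem sx_BadS : S_BadS := BadS_pf sx_UpK sh_Tau sh_Cha wa_UZ
theorem sx_AtTS : S_AtTS :=
  AtTS_pf sh_Sys sx_LoS sx_BadS sh_Rv sh_Pw sh_Th sh_NumS sh_Cha wa_UZ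

/-- The sharp lower bound in sectors. -/
theorem sx_MainS : S_MainS := MainS_pf sx_AtTS wm_Wts

/-- Moments in sectors and short windows. -/
theorem sx_MomS : S_MomS := MomS_pf sx_MainS

end Pool.Agent.Work.MP_56b8f5_nt.SX
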