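import Pool.Agent.Work.MP_56b8f5_nt.SX.Stmts
import Pool.Agent.Work.MP_56b8f5_nt.SH.I_ArcK

/-!
MP_56b8f5_nt, block SX, item Y6 (LoS): the lower bound in the sector with the kernel.
-/

set_option autoImplicit false

open MeasureTheory Set Filter Topology

noncomputable section

namespace Pool.Agent.Work.MP_56b8f5_nt.SX

open Pool.Agent.Work.MP_56b8f5_nt.EM Pool.Agent.Work.MP_56b8f5_nt.WM
open Pool.Agent.Work.MP_56b8f5_nt.WA Pool.Agent.Work.MP_56b8f5_nt.SH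

open SH.I_ArcK in
/-- **Y6 (LoS)** -/
theorem LoS_pf (h1 : SH.S_HyA) (h2 : S_TrigL2) (h5 : SH.S_Cha) (h0 : WA.S_UZ) : S_LoS := by
  intro w hw hw0 B hB
  have hPc : ∀ S : Finset ℕ, Continuous fun t : ℝ => PS S t := h5.2.2.2.2.2.2.2.2.1
  obtain ⟨ε₀, η₀, C, hε0, hε1, hη0, hC, hHy⟩ := h1 w hw hw0 B hB
  refine ⟨ε₀, η₀, hε0, hε1, hη0, ?_⟩
  intro Λ θ hΛ hθ hθπ
  have hc0 : 0 < W0 w / 2 := half_pos hw0
  have hΛ0 : 0 ≤ Λ := zero_le_one.trans hΛ
  obtain ⟨n, ε', hε', hT⟩ := h2 (W0 w / 2) (C * (1 + Λ)) hc0 (by positivity) θ hθ hθπ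
  obtain ⟨T₀, hT0, hHy'⟩ := hHy Λ ε' n hΛ0 hε'
  refine ⟨T₀, hT0, ?_⟩
  intro T hTT ε c η hε hεε hc hc2 hη hηη M S l y hsys hL K β ω hK hβ hω
  have hHyp := hHy' T hTT ε c η hε hεε hc hc2 hη hηη M S l y hsys hL K β hK hβ
  have hlin : Continuous fun u : ℝ => T * u := continuous_const.mul continuous_id
  have hcs : HasCompactSupport fun u => w u * ‖Ph M S l K (β * st M S) (T * u)‖ ^ 2 :=
    (w_cs hw).mul_right
  have hcw : Continuous fun u => w u * ‖Ph M S l K (β * st M S) (T * u)‖ ^ 2 :=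
    hw.smooth.continuous.mul (((cont_Ph hPc M S l K _).comp hlin).norm.pow 2)
  have hX : 0 ≤ Xx M S K β :=
    mul_nonneg (Real.exp_pos _).le (Th_nonneg _ _)
  have hfin := hT
    (fun u => w u * ‖Ph M S l K (β * st M S) (T * u)‖ ^ 2) hcw hcs
    (fun u => mul_nonneg (hw.nonneg u) (by positivity))
    (Xx M S K β) (zf T) (fun u => WA.U (T * u))
    (fun u => NN M S l ((β - 1) / 2) ((β - 1) / 2) (T * u))
    (fun u => NN M S l (β / 2) (β / 2) (T * u))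
    (fun u => NN M S l (β / 2) ((β - 1) / 2) (T * u)) hX (h0.2.1.comp hlin) (h0.1.comp hlin)
    ((cont_NN hPc M S l _ _).comp hlin) ((cont_NN hPc M S l _ _).comp hlin)
    ((cont_NN hPc M S l _ _).comp hlin) (fun u => h0.2.2.1 _) (fun u => h0.2.2.2 _)
    (fun u => by rw [← norm_mul, NN_sq, norm_pow]) hHyp ω hω
  have e1 : W0 w / (8 * Real.pi) * θ * Xx M S K β = W0 w / 2 / (4 * Real.pi) * θ * Xx M S K β := by
    congr 2
    rw [div_div]
    congr 1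
    ring
  rw [e1]
  refine hfin.trans (le_of_eq ?_)
  congr 1
  funext u
  show w u * ‖Ph M S l K (β * st M S) (T * u)‖ ^ 2 * (az (T * u) *
    (Nb M S l (β - 1) (T * u) * Nb M S l β (T * u))) = _
  ring

end Pool.Agent.Work.MP_56b8f5_nt.SX
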