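import Pool.Agent.Work.MP_56b8f5_nt.SH.StmtsA
import Pool.Agent.Work.MP_56b8f5_nt.WA.StmtsB

/-!
MP_56b8f5_nt, block SX (captain helper98): the sharp lower bound of block SH (captain helper89) in SECTORS, with constants
that do not depend on the sector and a linear dependence on its opening. Built on block SHA (captain helper68).

Final theorem `S_MainS`: for every `k` there are `c, C > 0` such that for every `0 < θ ≤ π`, all large `T` (depending on `k`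
and `θ`), all `|V| ≤ k log log T` and all `|ω| = 1` the measure of the `t` in `[T, 2T]` with
`e^{V-C} ≤ |ζ(1/2+it)| ≤ e^{V+C}` and `|arg (ζ(1/2+it)/ω)| < θ` is at least `c θ T exp(-V²/log log T)/√(log log T)`.

The statements `SH.S_*` of the blocks SH, SHA (`SH/Stmts.lean`, `SH/StmtsA.lean`) and `WA.S_*` of the blocks WA, WB
(`WA/Stmts.lean`, `WA/StmtsB.lean`) are used as hypotheses.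
-/

set_option autoImplicit false

open MeasureTheory Set Filter Topology

noncomputable section

namespace Pool.Agent.Work.MP_56b8f5_nt.SX

open Pool.Agent.Work.MP_56b8f5_nt.EM Pool.Agent.Work.MP_56b8f5_nt.WM
open Pool.Agent.Work.MP_56b8f5_nt.WA Pool.Agent.Work.MP_56b8f5_nt.SH

/-- `ζ(1/2+it)` for `t = T u`. -/
def zf (T : ℝ) : ℝ → ℂ := fun u => zt (T * u)

/-- The size `e^{β² s} Th K s`, `s = st M S`. -/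
def Xx (M : ℕ) (S : ℕ → Finset ℕ) (K : ℕ) (β : ℝ) : ℝ := Real.exp (β ^ 2 * st M S) * Th K (st M S)

/-! ### Group A: oscillating harmonics -/

/-- **Y1 (PrU0), pairs.** `chi(Tu)(h) chi(-Tu)(l) = (hl)^{-1/2} e^{i T u lam}`, `lam = log(l/h) ≥ -(log T)/8`; `WA.S_Osc`. -/
def S_PrU0 : Prop := ∀ w : ℝ → ℝ, IsW w → ∀ a : ℕ, 1 ≤ a → ∃ C T₀ : ℝ, 0 ≤ C ∧ 1 ≤ T₀ ∧
  ∀ T : ℝ, T₀ ≤ T → ∀ h l : ℕ, h ≠ 0 → l ≠ 0 → (h : ℝ) ^ 8 ≤ T → (l : ℝ) ^ 8 ≤ T →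
    ‖∫ u : ℝ, (w u : ℂ) * (WA.U (T * u) ^ a * (chi (T * u) h * chi (-(T * u)) l))‖ ≤
      C / T ^ (1 / 12 : ℝ)

/-- **Y2 (PrU2), pairs.** As `WA.S_OscZ2` (adapt `WA/I_OscZ2.lean`): replace `ζ²` by `P(K)²`, `K = T^(11/5)` (`WA.S_ZPK`), error
`≤ C T^(-1/10) ∫ w (2|ζ| + C) ≤ C' T^(-1/10) log T` (`WM.S_TSb` with `b = 1_1`, `X = 1`, `∫ w ≤ 1`); expand
`conj P² = ∑_{k₁,k₂} e^{-(k₁+k₂)/K} (k₁k₂)^(-1/2) e^{it log(k₁k₂)}`, `lam = log(k₁k₂l/h) ≥ -(log T)/8`, `WA.S_Osc3` and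
`(∑_k e^{-k/K}/√k)² ≤ 4K` (`StPc`): `4 C T^(11/5-3)`. -/
def S_PrU2 : Prop := ∀ w : ℝ → ℝ, IsW w → ∀ a : ℕ, 1 ≤ a → ∃ C T₀ : ℝ, 0 ≤ C ∧ 1 ≤ T₀ ∧
  ∀ T : ℝ, T₀ ≤ T → ∀ h l : ℕ, h ≠ 0 → l ≠ 0 → (h : ℝ) ^ 8 ≤ T → (l : ℝ) ^ 8 ≤ T →
    ‖∫ u : ℝ, (w u : ℂ) * (WA.U (T * u) ^ a * ((starRingEnd ℂ) (zt (T * u)) ^ 2 *
      (chi (T * u) h * chi (-(T * u)) l)))‖ ≤ C / T ^ (1 / 12 : ℝ)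

/-- **Y3 (GnU), products.** `SH.S_Lin` (with `Z = U^a`, `U^a conj ζ²`, continuous by `WA.S_UZ`; second part with
`ψ = 0`), Y1, Y2 and `SH.S_NmL` (`nm nm ≤ T^(1/16)`): `T^(-1/12+1/16) = T^(-1/48)`. -/
def S_GnU : Prop := ∀ w : ℝ → ℝ, IsW w → ∀ a : ℕ, 1 ≤ a → ∃ C T₀ : ℝ, 0 ≤ C ∧ 1 ≤ T₀ ∧
  ∀ T : ℝ, T₀ ≤ T → ∀ (ε c η : ℝ) (M : ℕ) (S : ℕ → Finset ℕ) (l : ℕ → ℕ) (y : ℕ → ℝ),
  IsSys ε c η (Real.log T) M S l y → ∀ P Q : ℕ → Polynomial ℂ, IsU M l P → IsU M l Q →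
    ‖∫ u : ℝ, (w u : ℂ) * (WA.U (T * u) ^ a * (ev (T * u) (al M S P) *
      ev (-(T * u)) (al M S Q)))‖ ≤ C / T ^ (1 / 48 : ℝ) ∧
    ‖∫ u : ℝ, (w u : ℂ) * (WA.U (T * u) ^ a * ((starRingEnd ℂ) (zt (T * u)) ^ 2 *
      (ev (T * u) (al M S P) * ev (-(T * u)) (al M S Q))))‖ ≤ C / T ^ (1 / 48 : ℝ)

/-- **Y4 (OsK), with the kernel.** `SH.S_Exd` (`|exp(-i...)| = 1`, `K²` pairs), Y3; `IsU` for `Ui` by `SH.S_PolI`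
(`g = |a|+|b|+(|ξ|+|ξ'|)/2 ≤ 2B+1 ≤ l_j` by `ll`, `ε₀ = 1/(2B+1)`; `0 ≤ xi K k ≤ 1`). -/
def S_OsK : Prop := ∀ w : ℝ → ℝ, IsW w → ∀ B : ℝ, 1 ≤ B → ∃ ε₀ : ℝ, 0 < ε₀ ∧ ε₀ ≤ 1 ∧
  ∀ a : ℕ, 1 ≤ a → ∃ C T₀ : ℝ, 0 ≤ C ∧ 1 ≤ T₀ ∧ ∀ T : ℝ, T₀ ≤ T →
  ∀ ε c η : ℝ, 0 < ε → ε ≤ ε₀ → ∀ (M : ℕ) (S : ℕ → Finset ℕ) (l : ℕ → ℕ) (y : ℕ → ℝ),
  IsSys ε c η (Real.log T) M S l y →
  ∀ (K : ℕ) (V a₁ b₁ a₂ b₂ : ℝ) (i r : ℕ), 1 ≤ K → |a₁| ≤ B → |b₁| ≤ B → |a₂| ≤ B → |b₂| ≤ B →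
    (r = 0 ∨ (i < M ∧ r ≤ l i)) →
    ‖∫ u : ℝ, (w u : ℂ) * (WA.U (T * u) ^ a *
      (NN M S l a₁ b₁ (T * u) * (starRingEnd ℂ) (NN M S l a₂ b₂ (T * u)) *
        ((‖PS (S i) (T * u)‖ ^ (2 * r) * ‖Ph M S l K V (T * u)‖ ^ 2 : ℝ) : ℂ)))‖ ≤
      C * K ^ 2 / T ^ (1 / 48 : ℝ) ∧
    ‖∫ u : ℝ, (w u : ℂ) * (WA.U (T * u) ^ a * ((starRingEnd ℂ) (zt (T * u)) ^ 2 *
      (NN M S l a₁ b₁ (T * u) * (starRingEnd ℂ) (NN M S l a₂ b₂ (T * u)) *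
        ((‖PS (S i) (T * u)‖ ^ (2 * r) * ‖Ph M S l K V (T * u)‖ ^ 2 : ℝ) : ℂ))))‖ ≤
      C * K ^ 2 / T ^ (1 / 48 : ℝ)

/-! ### Group B: lower bound in the sector -/

/-- **Y5 (TrigL2).** `WA.S_TrigL` with the explicit constant `c₁ = c₀/(4π)` (which does not depend on `C₀`): the proof in
`WA/I_TrigL.lean`. -/
def S_TrigL2 : Prop := ∀ c₀ C₀ : ℝ, 0 < c₀ → 0 < C₀ →
  ∀ θ : ℝ, 0 < θ → θ ≤ Real.pi → ∃ (n : ℕ) (ε : ℝ), 0 < ε ∧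
  ∀ w : ℝ → ℝ, Continuous w → HasCompactSupport w → (∀ u, 0 ≤ w u) →
  ∀ (X : ℝ) (f V A B Q : ℝ → ℂ), 0 ≤ X → Continuous f → Continuous V → Continuous A → Continuous B →
    Continuous Q → (∀ u, ‖V u‖ = 1) → (∀ u, (starRingEnd ℂ) (f u) = V u * f u) →
    (∀ u, ‖A u‖ * ‖B u‖ = ‖Q u‖ ^ 2) → Hy w n c₀ C₀ ε X f V A B Q →
    ∀ ω : ℂ, ‖ω‖ = 1 →
      c₀ / (4 * Real.pi) * θ * X ≤ ∫ u in sec θ ω f, w u * (‖f u‖ * (‖A u‖ * ‖B u‖))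

/-- **Y6 (LoS).** `SH.S_HyA` (weight `w ‖Ph‖²`, `c₀ = W0 w/2`, `C₀ = C (1+Λ)`) and Y5, which gives `n`, `ε' = ε` for `θ`; compare
`SH.S_ArcK` (`SH/I_ArcK.lean`): continuity by `SH.S_Cha`, `WA.S_UZ` for `f`, `V`, `A B = Q²`, `Nb β = ‖NN (β/2) (β/2)‖`. -/
def S_LoS : Prop := ∀ w : ℝ → ℝ, IsW w → 0 < W0 w → ∀ B : ℝ, 1 ≤ B → ∃ ε₀ η₀ : ℝ,
  0 < ε₀ ∧ ε₀ ≤ 1 ∧ 0 < η₀ ∧ ∀ Λ θ : ℝ, 1 ≤ Λ → 0 < θ → θ ≤ Real.pi → ∃ T₀ : ℝ, 3 ≤ T₀ ∧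
  ∀ T : ℝ, T₀ ≤ T →
  ∀ ε c η : ℝ, 0 < ε → ε ≤ ε₀ → 0 < c → c ≤ 1 / 2 → 0 < η → η ≤ η₀ → ∀ (M : ℕ) (S : ℕ → Finset ℕ)
    (l : ℕ → ℕ) (y : ℕ → ℝ), IsSys ε c η (Real.log T) M S l y →
    Real.log T ≤ Λ * Real.exp (st M S) →
  ∀ (K : ℕ) (β : ℝ) (ω : ℂ), 1 ≤ K → |β| ≤ B → ‖ω‖ = 1 →
    W0 w / (8 * Real.pi) * θ * Xx M S K β ≤
      ∫ u in sec θ ω (zf T), w u * (az (T * u) * (Nb M S l (β - 1) (T * u) *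
        (Nb M S l β (T * u) * ‖Ph M S l K (β * st M S) (T * u)‖ ^ 2)))

/-! ### Group C: upper bounds in the sector -/

/-- **Y7 (TPc), coefficients.** `2π p_m = ∫_0^{2π} (TP(e^{ix}) + τ) e^{-imx} dx` and `∫_0^{2π} (TP(e^{ix}) + τ) dx = 2π (p0 + τ)`. -/
def S_TPc : Prop := ∀ (n : ℕ) (p0 τ : ℝ) (p : ℕ → ℂ), (∀ z : ℂ, ‖z‖ = 1 → 0 ≤ TP n p0 p z + τ) →
  ∀ m : ℕ, 1 ≤ m → m ≤ n → ‖p m‖ ≤ p0 + τ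

/-- **Y8 (TrigU2).** As `WA.S_TrigU` (compare `WA/I_TrigU.lean`; `WA.S_KerU` with `τ = θ/4`), but the harmonic `a = 1` is bounded
trivially: `|p_1| ≤ p0 + τ ≤ 3θ/2` (Y7), `‖∫ w V G‖ ≤ ∫ w G ≤ C₀ X`. `C₁ = 5 C₀ + 1`. -/
def S_TrigU2 : Prop := ∀ C₀ : ℝ, 0 < C₀ → ∃ C₁ : ℝ, 0 < C₁ ∧
  ∀ θ : ℝ, 0 < θ → θ ≤ Real.pi → ∃ (n : ℕ) (ε : ℝ), 0 < ε ∧
  ∀ w : ℝ → ℝ, Continuous w → HasCompactSupport w → (∀ u, 0 ≤ w u) →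
  ∀ (X : ℝ) (f V : ℝ → ℂ) (G : ℝ → ℝ), 0 ≤ X → Continuous f → Continuous V → Continuous G →
    (∀ u, 0 ≤ G u) → (∀ u, ‖V u‖ = 1) → (∀ u, (starRingEnd ℂ) (f u) = V u * f u) →
    ∫ u : ℝ, w u * G u ≤ C₀ * X →
    (∀ a : ℕ, 2 ≤ a → a ≤ n → ‖∫ u : ℝ, (w u : ℂ) * (V u ^ a * (G u : ℂ))‖ ≤ ε * X) →
    ∀ ω : ℂ, ‖ω‖ = 1 → ∫ u in sec θ ω f, w u * G u ≤ C₁ * θ * X

/-- **Y9 (UpK), moments in the sector.** `C₀` the constant of `SH.S_Kin`, `C₁` of Y8. First: `G = Nb² ‖PS‖^{2r} ‖Ph‖²`,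
`X = Di C (se (S i)) r · Xx`, harmonics by Y4, first part (`a₁ = b₁ = a₂ = b₂ = β/2`, `Nb² = NN conj NN`). Second:
`G = az² Nb² ...`, `X = (1 + log T e^{-s}) Di Xx`; `U^a az² = U^(a-1) conj ζ²` (`conj ζ = U ζ`, `az² = ζ conj ζ`), `a - 1 ≥ 1`, Y4, second part.
`C K²/T^(1/48) ≤ ε X` for large `T`: `K² ≤ 2√s Xx` (`SH.S_Th`), `s ≤ log log T`, `Di ≥ 1`. -/
def S_UpK : Prop := ∀ w : ℝ → ℝ, IsW w → 0 < W0 w → ∀ B : ℝ, 1 ≤ B → ∃ ε₀ η₀ C : ℝ,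
  0 < ε₀ ∧ ε₀ ≤ 1 ∧ 0 < η₀ ∧ 1 ≤ C ∧ ∀ θ : ℝ, 0 < θ → θ ≤ Real.pi → ∃ T₀ : ℝ, 3 ≤ T₀ ∧
  ∀ T : ℝ, T₀ ≤ T →
  ∀ ε c η : ℝ, 0 < ε → ε ≤ ε₀ → 0 < c → c ≤ 1 / 2 → 0 < η → η ≤ η₀ → ∀ (M : ℕ) (S : ℕ → Finset ℕ)
    (l : ℕ → ℕ) (y : ℕ → ℝ), IsSys ε c η (Real.log T) M S l y → 1 ≤ st M S →
  ∀ (K : ℕ) (β V : ℝ) (ω : ℂ) (i r : ℕ), 1 ≤ K → |β| ≤ B → ‖ω‖ = 1 →
    (r = 0 ∨ (i < M ∧ r ≤ l i)) →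
    ∫ u in sec θ ω (zf T), w u * (Nb M S l β (T * u) ^ 2 *
      (‖PS (S i) (T * u)‖ ^ (2 * r) * ‖Ph M S l K V (T * u)‖ ^ 2)) ≤
      C * θ * Di C (se (S i)) r * Xx M S K β ∧
    ∫ u in sec θ ω (zf T), w u * (az (T * u) ^ 2 * (Nb M S l (β - 1) (T * u) ^ 2 *
      (‖PS (S i) (T * u)‖ ^ (2 * r) * ‖Ph M S l K V (T * u)‖ ^ 2))) ≤
      C * θ * (1 + Real.log T * Real.exp (-(st M S))) * Di C (se (S i)) r * Xx M S K β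

/-- **Y10 (BadS), bad sets in the sector.** As `SH.S_Bad` (compare `SH/I_Bad.lean`), from Y9 and `SH.S_Tau`: `C ε₀ ≤ ρ/5`. -/
def S_BadS : Prop := ∀ w : ℝ → ℝ, IsW w → 0 < W0 w → ∀ B ρ : ℝ, 1 ≤ B → 0 < ρ → ρ ≤ 1 →
  ∃ ε₀ η₀ C : ℝ, 0 < ε₀ ∧ ε₀ ≤ 1 ∧ 0 < η₀ ∧ 1 ≤ C ∧ ∀ ε₁ : ℝ, 0 < ε₁ → ε₁ ≤ ε₀ →
  ∀ θ : ℝ, 0 < θ → θ ≤ Real.pi → ∃ T₀ : ℝ, 3 ≤ T₀ ∧ ∀ T : ℝ, T₀ ≤ T →
  ∀ (M : ℕ) (S : ℕ → Finset ℕ) (l : ℕ → ℕ) (y : ℕ → ℝ) (η : ℝ), 0 < η → η ≤ η₀ →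
    IsSys ε₁ (ρ / 2) η (Real.log T) M S l y → 1 ≤ st M S →
  ∀ (K : ℕ) (β V : ℝ) (ω : ℂ), 1 ≤ K → |β| ≤ B → ‖ω‖ = 1 →
    ∫ u in sec θ ω (zf T), w u * (Nb M S l β (T * u) ^ 2 * ‖Ph M S l K V (T * u)‖ ^ 2) ≤
      C * θ * Xx M S K β ∧
    ∫ u in sec θ ω (zf T), w u * (az (T * u) ^ 2 * (Nb M S l (β - 1) (T * u) ^ 2 *
        ‖Ph M S l K V (T * u)‖ ^ 2)) ≤
      C * θ * (1 + Real.log T * Real.exp (-(st M S))) * Xx M S K β ∧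
    (∀ i < M, ∫ u in sec θ ω (zf T) ∩ {u | ρ * l i < ‖PS (S i) (T * u)‖},
      w u * (Nb M S l β (T * u) ^ 2 * ‖Ph M S l K V (T * u)‖ ^ 2) ≤
      C * θ * Real.exp (-(ρ / 2 * l i)) * Xx M S K β) ∧
    (∀ i < M, ∫ u in sec θ ω (zf T) ∩ {u | ρ * l i < ‖PS (S i) (T * u)‖},
      w u * (az (T * u) ^ 2 * (Nb M S l (β - 1) (T * u) ^ 2 * ‖Ph M S l K V (T * u)‖ ^ 2)) ≤
      C * θ * (1 + Real.log T * Real.exp (-(st M S))) * Real.exp (-(ρ / 2 * l i)) * Xx M S K β)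

/-! ### Group D: the conclusion -/

/-- **Y11 (AtTS), the theorem at scale `T`.** As `SH.S_AtT` (adapt `SH/I_AtT.lean`): `B = 2k`, `ρ = 1/(9(B+1))`, `ε₁` the minimum of the
`ε₀` of Y6 and Y10, `η` at most the two `η₀`, `1/100` and `W0 w/(64 π C)`; system from `SH.S_Sys` with `ε₁`, `ρ/2`, `η`, giving `Λ`; then the
`T₀` of Y6 and Y10 for `Λ`, `θ`. `SH.S_Rv` with `ν = w 1_sec du`, `Y = θ Xx`, `c₀ = W0 w/(8π)`,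
`τ_j = C (1 + log T e^{-s}) e^{-(ρ/2) l_j}` (`∑ τ_j ≤ C η ≤ c₀/8` by `dec`), `C₀ = max(C(1+Λ), 42)`; `R` and `c₁` of `SH.S_Rv` do not depend
on `θ`. `SH.S_Pw`, `SH.S_Th`, `SH.S_NumS` as in `S_AtT`. -/
def S_AtTS : Prop := ∀ w : ℝ → ℝ, IsW w → 0 < W0 w → ∀ k : ℕ, 1 ≤ k → ∃ c C : ℝ, 0 < c ∧ 1 ≤ C ∧
  ∀ θ : ℝ, 0 < θ → θ ≤ Real.pi → ∃ T₀ : ℝ, 3 ≤ T₀ ∧
  ∀ T : ℝ, T₀ ≤ T → ∀ V : ℝ, |V| ≤ k * Real.log (Real.log T) → ∀ ω : ℂ, ‖ω‖ = 1 →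
    c * θ * (Real.exp (-(V ^ 2 / Real.log (Real.log T))) / Real.sqrt (Real.log (Real.log T))) ≤
      volume.real {u | w u ≠ 0 ∧ u ∈ sec θ ω (zf T) ∧ Real.exp (V - C) ≤ az (T * u) ∧
        az (T * u) ≤ Real.exp (V + C)}

/-- **Y12 (MainS), the final theorem.** Y11 at scale `4T` with `k+1`, as `SH.S_Main` (adapt `SH/I_Main.lean`). -/
def S_MainS : Prop := ∀ k : ℕ, 1 ≤ k → ∃ c C : ℝ, 0 < c ∧ 1 ≤ C ∧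
  ∀ θ : ℝ, 0 < θ → θ ≤ Real.pi → ∀ᶠ T : ℝ in atTop,
  ∀ V : ℝ, |V| ≤ k * Real.log (Real.log T) → ∀ ω : ℂ, ‖ω‖ = 1 →
    c * θ * T * (Real.exp (-(V ^ 2 / Real.log (Real.log T))) / Real.sqrt (Real.log (Real.log T))) ≤
      volume.real {t : ℝ | T ≤ t ∧ t ≤ 2 * T ∧
        Real.cos θ * ‖riemannZeta (1 / 2 + t * Complex.I)‖ <
          ((starRingEnd ℂ) ω * riemannZeta (1 / 2 + t * Complex.I)).re ∧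
        Real.exp (V - C) ≤ ‖riemannZeta (1 / 2 + t * Complex.I)‖ ∧
        ‖riemannZeta (1 / 2 + t * Complex.I)‖ ≤ Real.exp (V + C)}

/-- **Y13 (MomS), moments in short windows.** As `SH.S_MomA` (its docstring; `SH/I_MomA.lean`), from Y12 instead of X10: points
`V_i = κ LL + 3 C i`, `0 ≤ i ≤ ⌊H⌋`. -/
def S_MomS : Prop := ∀ k : ℕ, 1 ≤ k → ∃ c C : ℝ, 0 < c ∧ 1 ≤ C ∧
  ∀ θ : ℝ, 0 < θ → θ ≤ Real.pi → ∀ᶠ T : ℝ in atTop,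
  ∀ κ H : ℝ, |κ| ≤ k → 1 ≤ H → H ≤ Real.sqrt (Real.log (Real.log T)) → ∀ ω : ℂ, ‖ω‖ = 1 →
    c * θ * (H / Real.sqrt (Real.log (Real.log T))) * (T * Real.log T ^ (κ ^ 2 : ℝ)) ≤
      ∫ t in {t : ℝ | T ≤ t ∧ t ≤ 2 * T ∧
        Real.cos θ * ‖riemannZeta (1 / 2 + t * Complex.I)‖ <
          ((starRingEnd ℂ) ω * riemannZeta (1 / 2 + t * Complex.I)).re ∧
        Real.exp (κ * Real.log (Real.log T) - C * H) ≤ ‖riemannZeta (1 / 2 + t * Complex.I)‖ ∧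
        ‖riemannZeta (1 / 2 + t * Complex.I)‖ ≤ Real.exp (κ * Real.log (Real.log T) + C * H)},
        ‖riemannZeta (1 / 2 + t * Complex.I)‖ ^ (2 * κ : ℝ)

end Pool.Agent.Work.MP_56b8f5_nt.SX
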